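import Pool.Agent.T6.H13.MT.Total
import Pool.Agent.V1178.MT.Main

/-!
# The heart cohomology functor, and a second realisation in even degrees
-/

set_option autoImplicit false
set_option linter.unusedSectionVars false
set_option linter.unusedSimpArgs false
set_option backward.isDefEq.respectTransparency false
set_option backward.defeqAttrib.useBackward true

open CategoryTheory Limits MonoidalCategory Pretriangulated Triangulated

namespace Pool.Agent.T6.H13.MT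

open Pool.Agent.Y116.MT Pool.Agent.V1178.MT

universe v u w v' u' w'

section Hom

variable {C : Type u} [Category.{v} C] [Preadditive C] [HasZeroObject C] [HasShift C ℤ]
  [∀ n : ℤ, (shiftFunctor C n).Additive] [Pretriangulated C]

lemma shift_zero_map {D : Type u'} [Category.{v'} D] (H : C ⥤ D) {X Y : C} (f : X ⟶ Y) :
    H.map (f⟦(0 : ℤ)⟧') = H.map ((shiftFunctorZero C ℤ).hom.app X) ≫ H.map f ≫
      H.map ((shiftFunctorZero C ℤ).inv.app Y) := by
  have h5 : f⟦(0 : ℤ)⟧' = (shiftFunctorZero C ℤ).hom.app _ ≫ f ≫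
    (shiftFunctorZero C ℤ).inv.app _ := shiftZero' (A := ℤ) (f := f)
  rw [h5, Functor.map_comp, Functor.map_comp]

lemma mono_of_shift_zero {D : Type u'} [Category.{v'} D] (H : C ⥤ D) {X Y : C} (f : X ⟶ Y)
    (h : Mono (H.map (f⟦(0 : ℤ)⟧'))) : Mono (H.map f) := by
  have h1 : H.map f = H.map ((shiftFunctorZero C ℤ).inv.app X) ≫ H.map (f⟦(0 : ℤ)⟧') ≫
      H.map ((shiftFunctorZero C ℤ).hom.app Y) := by
    rw [shift_zero_map]
    simp [← Functor.map_comp]
  rw [h1]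
  infer_instance

lemma mono_shift_zero {D : Type u'} [Category.{v'} D] (H : C ⥤ D) {X Y : C} (f : X ⟶ Y)
    (h : Mono (H.map f)) : Mono (H.map (f⟦(0 : ℤ)⟧')) := by
  rw [shift_zero_map]
  infer_instance

lemma epi_of_shift_zero {D : Type u'} [Category.{v'} D] (H : C ⥤ D) {X Y : C} (f : X ⟶ Y)
    (h : Epi (H.map (f⟦(0 : ℤ)⟧'))) : Epi (H.map f) := by
  have h1 : H.map f = H.map ((shiftFunctorZero C ℤ).inv.app X) ≫ H.map (f⟦(0 : ℤ)⟧') ≫
      H.map ((shiftFunctorZero C ℤ).hom.app Y) := by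
    rw [shift_zero_map]
    simp [← Functor.map_comp]
  rw [h1]
  infer_instance

lemma epi_shift_zero {D : Type u'} [Category.{v'} D] (H : C ⥤ D) {X Y : C} (f : X ⟶ Y)
    (h : Epi (H.map f)) : Epi (H.map (f⟦(0 : ℤ)⟧')) := by
  rw [shift_zero_map]
  infer_instance

section

variable {A : Type*} [Category A] [Abelian A] (H : C ⥤ A) [H.IsHomological]
  {X Y Z : C} {f : X ⟶ Y} {g : Y ⟶ Z} {h : Z ⟶ X⟦(1 : ℤ)⟧}
  (hT : Triangle.mk f g h ∈ distTriang C)

include hT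

lemma hz3_of_mono (n : ℤ) (hY : IsZero (H.obj (Y⟦n - 1⟧))) (hm : Mono (H.map (f⟦n⟧'))) :
    IsZero (H.obj (Z⟦n - 1⟧)) := by
  let _ := Functor.ShiftSequence.tautological H ℤ
  have h1 := (H.homologySequence_mono_shift_map_mor₁_iff _ hT (n - 1) n (by omega)).1 hm
  have h2 : Epi (H.map (g⟦n - 1⟧')) :=
    (H.homologySequence_epi_shift_map_mor₂_iff _ hT (n - 1) n (by omega)).2 h1
  rw [IsZero.iff_id_eq_zero, ← cancel_epi (H.map (g⟦n - 1⟧'))]
  exact hY.eq_of_src _ _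

lemma hz3_of_epi (n : ℤ) (hX : IsZero (H.obj (X⟦n + 1⟧))) (he : Epi (H.map (f⟦n⟧'))) :
    IsZero (H.obj (Z⟦n⟧)) := by
  let _ := Functor.ShiftSequence.tautological H ℤ
  have h1 : H.map (g⟦n⟧') = 0 := (H.homologySequence_epi_shift_map_mor₁_iff _ hT n).1 he
  have h2 := hepi2 H hT n hX
  rw [IsZero.iff_id_eq_zero, ← cancel_epi (H.map (g⟦n⟧')), h1, zero_comp, zero_comp]

end

variable {E : Type w} [Field E] (H : C ⥤ ModuleCat.{w} E) [H.IsHomological]
  {X Y Z : C} {f : X ⟶ Y} {g : Y ⟶ Z} {h : Z ⟶ X⟦(1 : ℤ)⟧}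
  (hT : Triangle.mk f g h ∈ distTriang C)

include hT

lemma hex2 (n : ℤ) (x : H.obj (Y⟦n⟧)) (hx : H.map (g⟦n⟧') x = 0) :
    ∃ y, H.map (f⟦n⟧') y = x := by
  let _ := Functor.ShiftSequence.tautological H ℤ
  have h1 := H.homologySequence_exact₂ _ hT n
  exact (ShortComplex.moduleCat_exact_iff _).1 h1 x hx

end Hom

section

variable {C : Type u} [Category.{v} C] [Preadditive C] [HasZeroObject C] [HasShift C ℤ]
  [∀ n : ℤ, (shiftFunctor C n).Additive] [Pretriangulated C] [MonoidalCategory C]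
  [SymmetricCategory C] [TensorTriangulated C] [MonoidalPreadditive C] [RightRigidCategory C]
  {E : Type w} [Field E] {R : Realisation C E} {E' : Type w'} [Field E'] {R' : Realisation C E'}
  {t : TStructure C} (hc : Conservative R) (he : TExact t R)

include hc he

/-- A morphism of the heart which becomes an isomorphism is an isomorphism. -/
lemma heart_isIso {M N : C} (hM : Hrt t M) (hN : Hrt t N) (f : M ⟶ N)
    (hf : IsIso (R.H.map f)) : IsIso f := by
  obtain ⟨W, p, d, hT⟩ := distinguished_cocone_triangle f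
  apply (isIso1_of_isZero3 hT)
  apply hc
  intro i
  have h1 : Mono (R.H.map (f⟦(0 : ℤ)⟧')) := mono_shift_zero R.H f inferInstance
  have h2 : Epi (R.H.map (f⟦(0 : ℤ)⟧')) := epi_shift_zero R.H f inferInstance
  rcases eq_or_ne i 0 with rfl | h0
  · exact hz3_of_epi R.H hT 0 (he.deg hM _ (by omega)) h2
  · rcases eq_or_ne i (-1) with rfl | h3
    · exact hz3_of_mono R.H hT 0 (he.deg hN _ (by omega)) h1
    · exact hz3 R.H hT i (he.deg hN _ h0) (he.deg hM _ (by omega))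

variable (hodd : ∀ Z : C, Hrt t Z → ∀ j : ℤ, Odd j → IsZero (R'.H.obj (Z⟦j⟧)))

include hodd

/-- The second realisation is exact on the heart in even degrees. -/
theorem even_exact {M₁ M₂ M₃ : C} (h₁ : Hrt t M₁) (h₂ : Hrt t M₂) (h₃ : Hrt t M₃)
    (f : M₁ ⟶ M₂) (g : M₂ ⟶ M₃) (hfg : f ≫ g = 0)
    (hex : ∀ x : R.H.obj M₂, R.H.map g x = 0 → ∃ y, R.H.map f y = x) {j : ℤ} (hj : Even j)
    (x : R'.H.obj (M₂⟦j⟧)) (hx : R'.H.map (g⟦j⟧') x = 0) : ∃ y, R'.H.map (f⟦j⟧') y = x := by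
  obtain ⟨K, p, d, hK⟩ := distinguished_cocone_triangle f
  obtain ⟨g', rfl⟩ := ye2 hK g hfg
  obtain ⟨A, Q, hA, hQ, a, q, b, hT⟩ := t.exists_triangle K (-1) 0 (by norm_num)
  have hA1 : t.IsLE A (-1) := ⟨hA⟩
  have hQ1 : t.IsGE Q 0 := ⟨hQ⟩
  have hM1 := h₁.1
  have hM1' := h₁.2
  have hM2 := h₂.1
  have hM2' := h₂.2
  have hM3 := h₃.1
  have hM3' := h₃.2
  have hK1 : t.IsLE K 0 := isLE3 hK (t.isLE_of_le M₁ 0 (0 + 1)) hM2
  have hK2 : t.IsGE K (-1) := isGE3 hK (by simpa using hM1') (t.isGE_of_ge M₂ (-1) 0)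
  have hQ2 : t.IsLE Q 0 := isLE3 hT (t.isLE_of_le A (-1) (0 + 1)) hK1
  have hA2 : t.IsGE A (-1) := isGE1 hT hK2 (t.isGE_of_ge Q (-1 - 1) 0)
  have h0 : a ≫ g' = 0 := t.zero_of_isLE_of_isGE _ (-1) 0 (by omega) hA1 hM3'
  obtain ⟨g'', rfl⟩ := ye2 hT g' h0
  obtain ⟨W, r, s, hW⟩ := distinguished_cocone_triangle g''
  -- surjectivity of `H(M₂) ⟶ H(Q)`
  have hep : Epi (R.H.map p) := epi_of_shift_zero R.H p
    (hepi2 R.H hK 0 (he.deg h₁ _ (by omega)))
  have heq : Epi (R.H.map q) := epi_of_shift_zero R.H q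
    (hepi2 R.H hT 0 (he.isLE hA1 _ (by omega)))
  have hmono : Mono (R.H.map g'') := by
    rw [ModuleCat.mono_iff_injective, injective_iff_map_eq_zero]
    intro z hz
    obtain ⟨z', rfl⟩ := (ModuleCat.epi_iff_surjective _).1 heq z
    obtain ⟨z'', rfl⟩ := (ModuleCat.epi_iff_surjective _).1 hep z'
    obtain ⟨y, rfl⟩ := hex z'' (by
      rw [Functor.map_comp, Functor.map_comp, ModuleCat.comp_apply, ModuleCat.comp_apply]
      exact hz)
    have h5 : R.H.map p (R.H.map f y) = 0 := by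
      rw [← ModuleCat.comp_apply, ← Functor.map_comp, comp12 hK, Functor.map_zero]
      rfl
    rw [h5, map_zero]
  have hWh : Hrt t W := by
    have hW1 : ∀ i : ℤ, i ≠ 0 → IsZero (R.H.obj (W⟦i⟧)) := by
      intro i hi
      rcases eq_or_ne i (-1) with rfl | h3
      · exact hz3_of_mono R.H hW 0 (he.deg h₃ _ (by omega)) (mono_shift_zero R.H g'' hmono)
      · exact hz3 R.H hW i (he.deg h₃ _ hi) (he.deg ⟨hQ2, hQ1⟩ _ (by omega))
    exact ⟨isLE_of hc he fun i hi => hW1 i (by omega), isGE_of hc he fun i hi => hW1 i (by omega)⟩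
  have hm1 : Mono (R'.H.map (g''⟦j⟧')) := hmono1 R'.H hW j (hodd W hWh _ (by
    rcases hj with ⟨k, rfl⟩
    exact ⟨k - 1, by ring⟩))
  have hAs : Hrt t (A⟦(-1 : ℤ)⟧) :=
    ⟨t.isLE_shift A (-1) (-1) 0, t.isGE_shift A (-1) (-1) 0⟩
  have hAj : IsZero (R'.H.obj (A⟦j⟧)) :=
    (hodd _ hAs (j + 1) (by
      rcases hj with ⟨k, rfl⟩
      exact ⟨k, by ring⟩)).of_iso
      (R'.H.mapIso ((shiftFunctorAdd' C (-1) (j + 1) j (by ring)).app A))
  have hm2 : Mono (R'.H.map (q⟦j⟧')) := hmono2 R'.H hT j hAj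
  apply hex2 R'.H hK j x
  apply (ModuleCat.mono_iff_injective _).1 hm2
  apply (ModuleCat.mono_iff_injective _).1 hm1
  rw [map_zero, map_zero, ← ModuleCat.comp_apply, ← ModuleCat.comp_apply, ← Functor.map_comp,
    ← Functor.map_comp, ← Functor.map_comp, ← Functor.map_comp]
  exact hx

end

end Pool.Agent.T6.H13.MT
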