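import Mathlib

/-!
# The numerical argument
-/

set_option autoImplicit false

namespace Pool.Agent.T6.H13.MT

open Finset

/-- If the numbers `u a j` are symmetric in `a`, and the distribution of `a + j` is at least as
large as the distribution of `a`, then `u` is concentrated in `j = 0`. -/
theorem comb (u : ℤ → ℤ → ℕ) (c : ℤ → ℕ) (K : ℤ)
    (hu : ∀ a j, u a j ≠ 0 → |a| ≤ K ∧ |j| ≤ K) (hc : ∀ a, c a ≠ 0 → |a| ≤ K)
    (h1 : ∀ a, ∑ j ∈ Icc (-K) K, u a j ≤ c a)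
    (h2 : ∀ m, c m ≤ ∑ a ∈ Icc (-K) K, u a (m - a))
    (h3 : ∀ a j, u (-a) j = u a j) (a j : ℤ) (hj : j ≠ 0) : u a j = 0 := by
  set I := Icc (-K) K with hI
  set J := Icc (-(2 * K)) (2 * K) with hJ
  let w : ℤ → ℤ := fun x => (2 * K) ^ 2 - x ^ 2
  have hw : ∀ x ∈ J, 0 ≤ w x := by
    intro x hx
    rw [hJ, mem_Icc] at hx
    simp only [w]
    nlinarith
  have hIJ : I ⊆ J := by
    intro x hx
    rw [hI, mem_Icc] at hx
    rw [hJ, mem_Icc]
    constructor <;> linarith [hx.1, hx.2]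
  have e1 : ∑ x ∈ I, w x * ∑ y ∈ I, (u x y : ℤ) ≤ ∑ x ∈ I, w x * (c x : ℤ) := by
    refine sum_le_sum (fun x hx => mul_le_mul_of_nonneg_left ?_ (hw x (hIJ hx)))
    exact_mod_cast h1 x
  have e2 : ∑ m ∈ J, w m * (c m : ℤ) ≤ ∑ m ∈ J, w m * ∑ x ∈ I, (u x (m - x) : ℤ) := by
    refine sum_le_sum (fun m hm => mul_le_mul_of_nonneg_left ?_ (hw m hm))
    exact_mod_cast h2 m
  have e3 : ∑ x ∈ I, w x * (c x : ℤ) = ∑ m ∈ J, w m * (c m : ℤ) := by
    refine sum_subset hIJ (fun x _ hx => ?_)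
    have : c x = 0 := by
      by_contra h
      have := hc x h
      rw [abs_le] at this
      exact hx (by rw [hI, mem_Icc]; exact this)
    rw [this]
    simp
  have e4 : ∑ m ∈ J, w m * ∑ x ∈ I, (u x (m - x) : ℤ) =
      ∑ x ∈ I, ∑ y ∈ I, w (x + y) * (u x y : ℤ) := by
    simp only [mul_sum]
    rw [sum_comm]
    refine sum_congr rfl (fun x hx => ?_)
    rw [hI, mem_Icc] at hx
    have h5 : ∑ y ∈ I, w (x + y) * (u x y : ℤ) =
        ∑ m ∈ I.image (fun y => x + y), w m * (u x (m - x) : ℤ) := by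
      rw [sum_image (fun y _ z _ h => by simpa using h)]
      refine sum_congr rfl (fun y _ => ?_)
      rw [add_sub_cancel_left]
    rw [h5]
    symm
    refine sum_subset ?_ (fun m _ hm => ?_)
    · intro m hm
      rw [mem_image] at hm
      obtain ⟨y, hy, rfl⟩ := hm
      rw [hI, mem_Icc] at hy
      rw [hJ, mem_Icc]
      constructor <;> linarith [hx.1, hx.2, hy.1, hy.2]
    · have : u x (m - x) = 0 := by
        by_contra h
        have := (hu _ _ h).2
        rw [abs_le] at this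
        exact hm (by
          rw [mem_image]
          exact ⟨m - x, by rw [hI, mem_Icc]; exact this, by ring⟩)
      rw [this]
      simp
  have e5 : ∑ x ∈ I, ∑ y ∈ I, (w x - w (x + y)) * (u x y : ℤ) ≤ 0 := by
    have h5 : ∑ x ∈ I, ∑ y ∈ I, (w x - w (x + y)) * (u x y : ℤ) =
        ∑ x ∈ I, w x * ∑ y ∈ I, (u x y : ℤ) - ∑ x ∈ I, ∑ y ∈ I, w (x + y) * (u x y : ℤ) := by
      rw [← sum_sub_distrib]
      refine sum_congr rfl (fun x _ => ?_)
      rw [mul_sum, ← sum_sub_distrib]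
      refine sum_congr rfl (fun y _ => ?_)
      ring
    rw [h5]
    linarith [e1, e2, e3, e4]
  have e6 : ∑ x ∈ I, ∑ y ∈ I, x * y * (u x y : ℤ) = 0 := by
    have h6 : ∑ x ∈ I, ∑ y ∈ I, x * y * (u x y : ℤ) =
        ∑ x ∈ I, ∑ y ∈ I, (-x) * y * (u x y : ℤ) := by
      refine sum_nbij' (fun x => -x) (fun x => -x) ?_ ?_ ?_ ?_ ?_
      · intro x hx
        rw [hI, mem_Icc] at hx ⊢
        constructor <;> linarith [hx.1, hx.2]
      · intro x hx
        rw [hI, mem_Icc] at hx ⊢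
        constructor <;> linarith [hx.1, hx.2]
      · intro x _; simp
      · intro x _; simp
      · intro x _
        refine sum_congr rfl (fun y _ => ?_)
        rw [h3]
        simp
    have h7 : ∑ x ∈ I, ∑ y ∈ I, (-x) * y * (u x y : ℤ) =
        -∑ x ∈ I, ∑ y ∈ I, x * y * (u x y : ℤ) := by
      rw [← sum_neg_distrib]
      refine sum_congr rfl (fun x _ => ?_)
      rw [← sum_neg_distrib]
      refine sum_congr rfl (fun y _ => ?_)
      ring
    rw [h7] at h6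
    linarith
  have e7 : ∑ x ∈ I, ∑ y ∈ I, y ^ 2 * (u x y : ℤ) ≤ 0 := by
    have h8 : ∑ x ∈ I, ∑ y ∈ I, (w x - w (x + y)) * (u x y : ℤ) =
        2 * ∑ x ∈ I, ∑ y ∈ I, x * y * (u x y : ℤ) + ∑ x ∈ I, ∑ y ∈ I, y ^ 2 * (u x y : ℤ) := by
      rw [mul_sum, ← sum_add_distrib]
      refine sum_congr rfl (fun x _ => ?_)
      rw [mul_sum, ← sum_add_distrib]
      refine sum_congr rfl (fun y _ => ?_)
      simp only [w]
      ring
    rw [h8, e6] at e5
    linarith
  by_contra h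
  obtain ⟨ha, hj'⟩ := hu a j h
  rw [abs_le] at ha hj'
  have haI : a ∈ I := by rw [hI, mem_Icc]; exact ha
  have hjI : j ∈ I := by rw [hI, mem_Icc]; exact hj'
  have h9 : j ^ 2 * (u a j : ℤ) ≤ ∑ x ∈ I, ∑ y ∈ I, y ^ 2 * (u x y : ℤ) := by
    calc j ^ 2 * (u a j : ℤ) ≤ ∑ y ∈ I, y ^ 2 * (u a y : ℤ) :=
          single_le_sum (f := fun y => y ^ 2 * (u a y : ℤ)) (fun y _ => by positivity) hjI
      _ ≤ _ := single_le_sum (f := fun x => ∑ y ∈ I, y ^ 2 * (u x y : ℤ))
          (fun x _ => sum_nonneg (fun y _ => by positivity)) haI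
  have h10 : 0 < j ^ 2 * (u a j : ℤ) := by
    have : 0 < u a j := Nat.pos_of_ne_zero h
    positivity
  linarith

end Pool.Agent.T6.H13.MT
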