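import Pool.Agent.T6.H13.MT.Coh

/-!
# The heart cohomology functor
-/

set_option autoImplicit false
set_option linter.unusedSectionVars false
set_option linter.unusedSimpArgs false
set_option backward.isDefEq.respectTransparency false
set_option backward.defeqAttrib.useBackward true

open CategoryTheory Limits MonoidalCategory Pretriangulated Triangulated

namespace Pool.Agent.T6.H13.MT

open Pool.Agent.Y116.MT Pool.Agent.V1178.MT

universe v u w v' u' w'

section

variable {C : Type u} [Category.{v} C] [Preadditive C] [HasZeroObject C] [HasShift C ℤ]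
  [∀ n : ℤ, (shiftFunctor C n).Additive] [Pretriangulated C] [IsTriangulated C]
  (t : TStructure C)

/-- The zeroth cohomology object for a t-structure. -/
noncomputable def hh : C ⥤ C := t.truncLT 1 ⋙ t.truncGE 0

instance : (hh t).Additive := by
  unfold hh
  infer_instance

lemma hh_hrt (X : C) : Hrt t ((hh t).obj X) := by
  constructor
  · have : t.IsLE ((t.truncLT 1).obj X) 0 := t.isLE_truncLT_obj X 1 0
    exact inferInstanceAs (t.IsLE ((t.truncGE 0).obj ((t.truncLT 1).obj X)) 0)
  · exact inferInstanceAs (t.IsGE ((t.truncGE 0).obj ((t.truncLT 1).obj X)) 0)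

end

section

variable {C : Type u} [Category.{v} C] [Preadditive C] [HasZeroObject C] [HasShift C ℤ]
  [∀ n : ℤ, (shiftFunctor C n).Additive] [Pretriangulated C] [IsTriangulated C]
  [MonoidalCategory C]
  [SymmetricCategory C] [TensorTriangulated C] [MonoidalPreadditive C] [RightRigidCategory C]
  {E : Type w} [Field E] {R : Realisation C E} {E' : Type w'} [Field E'] {R' : Realisation C E'}
  {t : TStructure C} (hc : Conservative R) (he : TExact t R)

include he

lemma H_iota (X : C) : IsIso (R.H.map ((t.truncLTι 1).app X)) := by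
  have hT := t.triangleLTGE_distinguished 1 X
  have hT' : Triangle.mk ((t.truncLTι 1).app X) ((t.truncGEπ 1).app X)
    ((t.truncGEδLT 1).app X) ∈ distTriang C := hT
  have h1 : t.IsGE ((t.truncGE 1).obj X) 1 := inferInstance
  have h2 := mono_of_shift_zero R.H _ (hmono1 R.H hT' 0 (he.isGE h1 _ (by omega)))
  have h3 := epi_of_shift_zero R.H _ (hepi1 R.H hT' 0 (he.isGE h1 _ (by omega)))
  exact isIso_of_mono_of_epi _

lemma H_pi (X : C) (_ : t.IsLE X 0) : IsIso (R.H.map ((t.truncGEπ 0).app X)) := by
  have hT := t.triangleLTGE_distinguished 0 X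
  have hT' : Triangle.mk ((t.truncLTι 0).app X) ((t.truncGEπ 0).app X)
    ((t.truncGEδLT 0).app X) ∈ distTriang C := hT
  have h1 : t.IsLE ((t.truncLT 0).obj X) (-1) := t.isLE_truncLT_obj X 0 (-1)
  have h2 := mono_of_shift_zero R.H _ (hmono2 R.H hT' 0 (he.isLE h1 _ (by omega)))
  have h3 := epi_of_shift_zero R.H _ (hepi2 R.H hT' 0 (he.isLE h1 _ (by omega)))
  exact isIso_of_mono_of_epi _

/-- The realisation of the heart cohomology. -/
noncomputable def hhIso : hh t ⋙ R.H ≅ R.H :=
  NatIso.ofComponents (fun X =>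
    have := H_iota he X
    have := H_pi he ((t.truncLT 1).obj X) (t.isLE_truncLT_obj X 1 0)
    (asIso (R.H.map ((t.truncGEπ 0).app ((t.truncLT 1).obj X)))).symm ≪≫
      asIso (R.H.map ((t.truncLTι 1).app X))) (by
    intro X Y f
    have := H_iota he X
    have := H_pi he ((t.truncLT 1).obj X) (t.isLE_truncLT_obj X 1 0)
    have := H_iota he Y
    have := H_pi he ((t.truncLT 1).obj Y) (t.isLE_truncLT_obj Y 1 0)
    simp only [Iso.trans_hom, Iso.symm_hom, asIso_inv, asIso_hom, Category.assoc]
    rw [← cancel_epi (R.H.map ((t.truncGEπ 0).app ((t.truncLT 1).obj X))),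
      IsIso.hom_inv_id_assoc]
    have h1 : R.H.map ((t.truncGEπ 0).app ((t.truncLT 1).obj X)) ≫ (hh t ⋙ R.H).map f =
        R.H.map ((t.truncLT 1).map f) ≫ R.H.map ((t.truncGEπ 0).app ((t.truncLT 1).obj Y)) := by
      rw [Functor.comp_map, ← Functor.map_comp, ← Functor.map_comp]
      congr 1
      exact ((t.truncGEπ 0).naturality ((t.truncLT 1).map f)).symm
    rw [← Category.assoc, h1, Category.assoc, IsIso.hom_inv_id_assoc, ← Functor.map_comp,
      ← Functor.map_comp]
    congr 1
    exact (t.truncLTι 1).naturality f)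

include hc

/-- A morphism which becomes an isomorphism in degree zero induces an isomorphism of the heart
cohomology. -/
lemma hh_map_isIso {X Y : C} (f : X ⟶ Y) (hf : IsIso (R.H.map f)) : IsIso ((hh t).map f) := by
  apply heart_isIso hc he (hh_hrt t X) (hh_hrt t Y)
  have h1 : R.H.map ((hh t).map f) = (hhIso he).hom.app X ≫ R.H.map f ≫ (hhIso he).inv.app Y := by
    have h2 := (hhIso he).hom.naturality f
    rw [← Category.assoc, ← h2, Category.assoc, ← NatTrans.comp_app, Iso.hom_inv_id,
      NatTrans.id_app, Category.comp_id]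
    rfl
  rw [h1]
  infer_instance

omit hc he in
/-- An object of the heart is its own heart cohomology. -/
lemma hh_iso_self {M : C} (hM : Hrt t M) : Nonempty ((hh t).obj M ≅ M) := by
  have h1 : t.IsLE M 0 := hM.1
  have h2 : t.IsGE M 0 := hM.2
  have h3 : IsIso ((t.truncLTι 1).app M) := (t.isLE_iff_isIso_truncLTι_app 0 1 rfl M).1 h1
  have h4 : IsIso ((t.truncGEπ 0).app M) := inferInstance
  exact ⟨(t.truncGE 0).mapIso (asIso ((t.truncLTι 1).app M)) ≪≫
    (asIso ((t.truncGEπ 0).app M)).symm⟩

variable (hodd : ∀ Z : C, Hrt t Z → ∀ j : ℤ, Odd j → IsZero (R'.H.obj (Z⟦j⟧)))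

/-- The second realisation of the heart cohomology. -/
noncomputable def Phi (t : TStructure C) (R' : Realisation C E') (j : ℤ) : C ⥤ ModuleCat.{w'} E' :=
  hh t ⋙ shiftFunctor C j ⋙ R'.H

instance (j : ℤ) : (Phi t R' j).Additive := by
  unfold Phi
  infer_instance

include hodd in
theorem Phi_homological {j : ℤ} (hj : Even j) : (Phi t R' j).IsHomological := by
  have h0 : (hh t ⋙ R.H).IsHomological := Functor.IsHomological.of_iso (hhIso he).symm
  refine { exact := fun T hT => ?_ }
  rw [ShortComplex.moduleCat_exact_iff]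
  intro x hx
  refine even_exact hc he hodd (hh_hrt t T.obj₁) (hh_hrt t T.obj₂) (hh_hrt t T.obj₃)
    ((hh t).map T.mor₁) ((hh t).map T.mor₂) ?_ ?_ hj x hx
  · rw [← Functor.map_comp, comp_distTriang_mor_zero₁₂ _ hT, Functor.map_zero]
  · have h1 := (hh t ⋙ R.H).map_distinguished_exact T hT
    exact (ShortComplex.moduleCat_exact_iff _).1 h1

end

end Pool.Agent.T6.H13.MT
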