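import Pool.Agent.T6.H13.MT.Main

/-!
# The motivic t-structure exists if the lowest cohomology lifts
-/

set_option autoImplicit false
set_option linter.unusedSectionVars false
set_option linter.unusedSimpArgs false
set_option backward.isDefEq.respectTransparency false
set_option backward.defeqAttrib.useBackward true

open CategoryTheory Limits MonoidalCategory Pretriangulated Triangulated
open scoped ZeroObject

namespace Pool.Agent.T6.H13.MT

open Pool.Agent.Y116.MT Pool.Agent.V1178.MT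

universe v u w v' u' w'

section Hom

variable {C : Type u} [Category.{v} C] [Preadditive C] [HasZeroObject C] [HasShift C ℤ]
  [∀ n : ℤ, (shiftFunctor C n).Additive] [Pretriangulated C]
  {A : Type*} [Category A] [Abelian A] (H : C ⥤ A) [H.IsHomological]
  {X Y Z : C} {f : X ⟶ Y} {g : Y ⟶ Z} {h : Z ⟶ X⟦(1 : ℤ)⟧}
  (hT : Triangle.mk f g h ∈ distTriang C)

include hT

lemma hz3_of_epi_mono (n : ℤ) (h0 : Epi (H.map (f⟦n⟧'))) (h1 : Mono (H.map (f⟦n + 1⟧'))) :
    IsZero (H.obj (Z⟦n⟧)) := by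
  let _ := Functor.ShiftSequence.tautological H ℤ
  have h2 : H.map (g⟦n⟧') = 0 := (H.homologySequence_epi_shift_map_mor₁_iff _ hT n).1 h0
  have h3 := (H.homologySequence_mono_shift_map_mor₁_iff _ hT n (n + 1) rfl).1 h1
  have h4 : Epi (H.map (g⟦n⟧')) :=
    (H.homologySequence_epi_shift_map_mor₂_iff _ hT n (n + 1) rfl).2 h3
  rw [IsZero.iff_id_eq_zero, ← cancel_epi (H.map (g⟦n⟧')), h2, zero_comp, zero_comp]

end Hom

section

variable {C : Type u} [Category.{v} C] [Preadditive C] [HasZeroObject C] [HasShift C ℤ]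
  [∀ n : ℤ, (shiftFunctor C n).Additive] [Pretriangulated C] [IsTriangulated C]

/-- The composition of two triangles: if `A₀ ⟶ M ⟶ M₁` and `A₁ ⟶ M₁ ⟶ B` are distinguished, then
there are distinguished triangles `A ⟶ M ⟶ B` and `A₀ ⟶ A ⟶ A₁`, up to shifts. -/
lemma compose_tri {A₀ M M₁ A₁ B : C} {a₀ : A₀ ⟶ M} {m : M ⟶ M₁} {d : M₁ ⟶ A₀⟦(1 : ℤ)⟧}
    (h₀ : Triangle.mk a₀ m d ∈ distTriang C) {a₁ : A₁ ⟶ M₁} {b : M₁ ⟶ B}
    {d' : B ⟶ A₁⟦(1 : ℤ)⟧} (h₁ : Triangle.mk a₁ b d' ∈ distTriang C) :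
    ∃ (A : C) (i : A ⟶ M) (p : M ⟶ B) (q : B ⟶ A⟦(1 : ℤ)⟧),
      Triangle.mk i p q ∈ distTriang C ∧
      ∃ (r : A₀⟦(1 : ℤ)⟧ ⟶ A⟦(1 : ℤ)⟧) (s : A⟦(1 : ℤ)⟧ ⟶ A₁⟦(1 : ℤ)⟧)
        (z : A₁⟦(1 : ℤ)⟧ ⟶ A₀⟦(1 : ℤ)⟧⟦(1 : ℤ)⟧), Triangle.mk r s z ∈ distTriang C := by
  obtain ⟨A, i, q, hA⟩ := distinguished_cocone_triangle₁ (m ≫ b)
  refine ⟨A, i, m ≫ b, q, hA, ?_⟩
  have O := someOctahedron (rfl : m ≫ b = m ≫ b) (rotD h₀) (rotD h₁) (rotD hA)
  exact ⟨_, _, _, O.mem⟩

end

section

variable {C : Type u} [Category.{v} C] [Preadditive C] [HasZeroObject C] [HasShift C ℤ]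
  [∀ n : ℤ, (shiftFunctor C n).Additive] [Pretriangulated C] [IsTriangulated C]
  [MonoidalCategory C]
  [SymmetricCategory C] [TensorTriangulated C] [MonoidalPreadditive C] [RightRigidCategory C]
  {Λ : Type*} {E : Λ → Type w} [∀ l, Field (E l)] (R : ∀ l, Realisation C (E l))

/-- The lowest cohomology of each object lifts: each nonzero object `M` admits a morphism `A ⟶ M`
from a nonzero object `A` and an integer `a`, such that for all realisations the cohomology of `A`
is concentrated in degree `a`, the cohomology of `M` is concentrated in degrees `≥ a`, and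
`H^a(A) ⟶ H^a(M)` is injective. -/
def LowestLifts : Prop :=
  ∀ M : C, ¬ IsZero M → ∃ (a : ℤ) (A : C) (f : A ⟶ M), ¬ IsZero A ∧ ∀ l : Λ,
    (R l).Deg A a ∧ (∀ i : ℤ, i < a → IsZero ((R l).H.obj (M⟦i⟧))) ∧ Mono ((R l).H.map (f⟦a⟧'))

/-- All realisations of `X` are in degrees `≤ n`. -/
def AllLE (n : ℤ) (X : C) : Prop := ∀ (l : Λ) (i : ℤ), n < i → IsZero ((R l).H.obj (X⟦i⟧))

/-- All realisations of `X` are in degrees `≥ n`. -/
def AllGE (n : ℤ) (X : C) : Prop := ∀ (l : Λ) (i : ℤ), i < n → IsZero ((R l).H.obj (X⟦i⟧))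

variable {R} {l₀ : Λ} (hc : Conservative (R l₀)) (hl : LowestLifts R)

include hc hl

/-- The lowest cohomology can be split off. -/
lemma split_lowest (d : ℕ) : ∀ (M : C) (a : ℤ), AllGE R a M → hd (R l₀) M a ≤ d →
    ∃ (A B : C) (i : A ⟶ M) (p : M ⟶ B) (q : B ⟶ A⟦(1 : ℤ)⟧), Triangle.mk i p q ∈ distTriang C ∧
      (∀ l, (R l).Deg A a) ∧ AllGE R (a + 1) B := by
  induction d with
  | zero =>
    intro M a hM hd0
    by_cases hz : IsZero M
    · refine ⟨0, M, 0, 𝟙 M, 0, contractible_distinguished₁ M, fun l i _ => ?_, fun l i _ => ?_⟩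
      · exact (R l).H.map_isZero (isZero_shift (isZero_zero C) i)
      · exact (R l).H.map_isZero (isZero_shift hz i)
    · obtain ⟨a', A, f, hA, h⟩ := hl M hz
      have h1 : a < a' := by
        by_contra hcon
        push Not at hcon
        have h2 : ¬ IsZero ((R l₀).H.obj (M⟦a'⟧)) := by
          intro h3
          apply hA
          apply hc
          intro i
          by_cases hi : i = a'
          · subst hi
            have := (h l₀).2.2
            rw [IsZero.iff_id_eq_zero, ← cancel_mono ((R l₀).H.map (f⟦i⟧'))]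
            exact h3.eq_of_tgt _ _
          · exact (h l₀).1 i hi
        rcases lt_or_eq_of_le hcon with h3 | h3
        · exact h2 (hM l₀ a' h3)
        · subst h3
          exact h2 (isZero_of_hd (R l₀) (Nat.le_zero.1 hd0))
      refine ⟨0, M, 0, 𝟙 M, 0, contractible_distinguished₁ M, fun l i _ => ?_, fun l i hi => ?_⟩
      · exact (R l).H.map_isZero (isZero_shift (isZero_zero C) i)
      · exact (h l).2.1 i (by omega)
  | succ d ih =>
    intro M a hM hd0
    by_cases hz : IsZero M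
    · refine ⟨0, M, 0, 𝟙 M, 0, contractible_distinguished₁ M, fun l i _ => ?_, fun l i _ => ?_⟩
      · exact (R l).H.map_isZero (isZero_shift (isZero_zero C) i)
      · exact (R l).H.map_isZero (isZero_shift hz i)
    obtain ⟨a', A, f, hA, h⟩ := hl M hz
    have hA0 : ¬ IsZero ((R l₀).H.obj (A⟦a'⟧)) := by
      intro h3
      apply hA
      apply hc
      intro i
      by_cases hi : i = a'
      · subst hi
        exact h3
      · exact (h l₀).1 i hi
    have h2 : ¬ IsZero ((R l₀).H.obj (M⟦a'⟧)) := by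
      intro h3
      apply hA0
      have := (h l₀).2.2
      rw [IsZero.iff_id_eq_zero, ← cancel_mono ((R l₀).H.map (f⟦a'⟧'))]
      exact h3.eq_of_tgt _ _
    have h3 : a ≤ a' := by
      by_contra hcon
      push Not at hcon
      exact h2 (hM l₀ a' hcon)
    rcases lt_or_eq_of_le h3 with h4 | h4
    · refine ⟨0, M, 0, 𝟙 M, 0, contractible_distinguished₁ M, fun l i _ => ?_, fun l i hi => ?_⟩
      · exact (R l).H.map_isZero (isZero_shift (isZero_zero C) i)
      · exact (h l).2.1 i (by omega)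
    · subst h4
      obtain ⟨M₁, m, e, hT⟩ := distinguished_cocone_triangle f
      have hM₁ : AllGE R a M₁ := by
        intro l i hi
        by_cases hi' : i = a - 1
        · subst hi'
          exact hz3_of_mono (R l).H hT a (hM l _ (by omega)) (h l).2.2
        · exact hz3 (R l).H hT i (hM l i hi) ((h l).1 _ (by omega))
      have hdim : hd (R l₀) M₁ a ≤ d := by
        have e1 := LinearMap.finrank_range_add_finrank_ker ((R l₀).H.map (m⟦a⟧')).hom
        have e2 : Epi ((R l₀).H.map (m⟦a⟧')) := hepi2 (R l₀).H hT a ((h l₀).1 _ (by omega))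
        have e3 : LinearMap.range ((R l₀).H.map (m⟦a⟧')).hom = ⊤ :=
          LinearMap.range_eq_top.2 ((ModuleCat.epi_iff_surjective _).1 e2)
        have e4 : LinearMap.range ((R l₀).H.map (f⟦a⟧')).hom ≤
            LinearMap.ker ((R l₀).H.map (m⟦a⟧')).hom := by
          rintro _ ⟨y, rfl⟩
          rw [LinearMap.mem_ker]
          change (R l₀).H.map (m⟦a⟧') ((R l₀).H.map (f⟦a⟧') y) = 0
          rw [← ModuleCat.comp_apply, ← Functor.map_comp, ← Functor.map_comp, comp12 hT,
            Functor.map_zero, Functor.map_zero]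
          rfl
        have e5 := Submodule.finrank_mono e4
        have e6 : Module.finrank (E l₀) (LinearMap.range ((R l₀).H.map (f⟦a⟧')).hom) =
            Module.finrank (E l₀) ((R l₀).H.obj (A⟦a⟧)) :=
          LinearMap.finrank_range_of_inj ((ModuleCat.mono_iff_injective _).1 (h l₀).2.2)
        have e7 : Module.finrank (E l₀) ((R l₀).H.obj (A⟦a⟧)) ≠ 0 := by
          intro h5
          exact hA0 (isZero_of_hd (R l₀) h5)
        rw [e3, finrank_top] at e1
        have e8 : hd (R l₀) M₁ a = Module.finrank (E l₀) ((R l₀).H.obj (M₁⟦a⟧)) := rfl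
        have e9 : hd (R l₀) M a = Module.finrank (E l₀) ((R l₀).H.obj (M⟦a⟧)) := rfl
        omega
      obtain ⟨A₁, B, i₁, p₁, q₁, hT₁, hA₁, hB⟩ := ih M₁ a hM₁ hdim
      obtain ⟨A', i', p', q', hT', r, s, z, hO⟩ := compose_tri hT hT₁
      refine ⟨A', B, i', p', q', hT', fun l i hi => ?_, hB⟩
      have h5 := hz2 (R l).H hO (i - 1)
        (((h l).1 i hi).of_iso ((R l).H.mapIso ((shiftFunctorAdd' C 1 (i - 1) i (by ring)).app
          A).symm))
        ((hA₁ l i hi).of_iso ((R l).H.mapIso ((shiftFunctorAdd' C 1 (i - 1) i (by ring)).app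
          A₁).symm))
      exact h5.of_iso ((R l).H.mapIso ((shiftFunctorAdd' C 1 (i - 1) i (by ring)).app A'))

/-- All truncations exist. -/
lemma truncations (d : ℕ) : ∀ (M : C) (a n : ℤ), AllGE R a M →
    (∀ i : ℤ, a + d ≤ i → IsZero ((R l₀).H.obj (M⟦i⟧))) →
    ∃ (A B : C) (i : A ⟶ M) (p : M ⟶ B) (q : B ⟶ A⟦(1 : ℤ)⟧), Triangle.mk i p q ∈ distTriang C ∧
      AllLE R n A ∧ AllGE R (n + 1) B := by
  induction d with
  | zero =>
    intro M a n hM h0
    have hz : IsZero M := by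
      apply hc
      intro i
      by_cases hi : i < a
      · exact hM l₀ i hi
      · exact h0 i (by push_cast; omega)
    refine ⟨0, M, 0, 𝟙 M, 0, contractible_distinguished₁ M, fun l i _ => ?_, fun l i _ => ?_⟩
    · exact (R l).H.map_isZero (isZero_shift (isZero_zero C) i)
    · exact (R l).H.map_isZero (isZero_shift hz i)
  | succ d ih =>
    intro M a n hM h0
    by_cases hn : n < a
    · refine ⟨0, M, 0, 𝟙 M, 0, contractible_distinguished₁ M, fun l i _ => ?_, fun l i hi => ?_⟩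
      · exact (R l).H.map_isZero (isZero_shift (isZero_zero C) i)
      · exact hM l i (by omega)
    push Not at hn
    obtain ⟨A₀, M₁, i₀, p₀, q₀, hT₀, hA₀, hM₁⟩ := split_lowest hc hl _ M a hM le_rfl
    obtain ⟨A₁, B, i₁, p₁, q₁, hT₁, hA₁, hB⟩ := ih M₁ (a + 1) n hM₁ (fun i hi => by
      exact hz3 (R l₀).H hT₀ i (h0 i (by push_cast at hi ⊢; omega))
        (hA₀ l₀ _ (by omega)))
    obtain ⟨A', i', p', q', hT', r, s, z, hO⟩ := compose_tri hT₀ hT₁
    refine ⟨A', B, i', p', q', hT', fun l i hi => ?_, hB⟩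
    have h5 := hz2 (R l).H hO (i - 1)
      ((hA₀ l i (by omega)).of_iso ((R l).H.mapIso ((shiftFunctorAdd' C 1 (i - 1) i (by ring)).app
        A₀).symm))
      ((hA₁ l i hi).of_iso ((R l).H.mapIso ((shiftFunctorAdd' C 1 (i - 1) i (by ring)).app
        A₁).symm))
    exact h5.of_iso ((R l).H.mapIso ((shiftFunctorAdd' C 1 (i - 1) i (by ring)).app A'))

lemma truncations' (M : C) (n : ℤ) :
    ∃ (A B : C) (i : A ⟶ M) (p : M ⟶ B) (q : B ⟶ A⟦(1 : ℤ)⟧), Triangle.mk i p q ∈ distTriang C ∧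
      AllLE R n A ∧ AllGE R (n + 1) B := by
  by_cases hz : IsZero M
  · refine ⟨0, M, 0, 𝟙 M, 0, contractible_distinguished₁ M, fun l i _ => ?_, fun l i _ => ?_⟩
    · exact (R l).H.map_isZero (isZero_shift (isZero_zero C) i)
    · exact (R l).H.map_isZero (isZero_shift hz i)
  · obtain ⟨a, A, f, hA, h⟩ := hl M hz
    obtain ⟨N, hN⟩ := (R l₀).bounded M
    exact truncations hc hl ((N + 1 : ℤ) - a).toNat M a n (fun l i hi => (h l).2.1 i hi)
      (fun i hi => hN i (by omega))

/-- Orthogonality is automatic. -/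
lemma orthogonal {X Y : C} (f : X ⟶ Y) (hX : AllLE R 0 X) (hY : AllGE R 1 Y) : f = 0 := by
  obtain ⟨D, p, q, hD⟩ := distinguished_cocone_triangle₁ f
  obtain ⟨A, B, i, b, c, hT, hA, hB⟩ := truncations' hc hl D 0
  obtain ⟨W, j, k, hW⟩ := distinguished_cocone_triangle (i ≫ p)
  have h1 : IsZero W := by
    apply hc
    intro n
    by_cases hn : 0 < n
    · exact hz3 (R l₀).H hW n (hX l₀ n hn) (hA l₀ _ (by omega))
    · have e1 : ∀ m : ℤ, m ≤ 0 → Epi ((R l₀).H.map ((i ≫ p)⟦m⟧')) := by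
        intro m hm
        have h2 : Epi ((R l₀).H.map (i⟦m⟧')) := hepi1 (R l₀).H hT m (hB l₀ m (by omega))
        have h3 : Epi ((R l₀).H.map (p⟦m⟧')) := hepi1 (R l₀).H hD m (hY l₀ m (by omega))
        rw [Functor.map_comp, Functor.map_comp]
        infer_instance
      have e2 : ∀ m : ℤ, m ≤ 1 → Mono ((R l₀).H.map ((i ≫ p)⟦m⟧')) := by
        intro m hm
        have h2 : Mono ((R l₀).H.map (i⟦m⟧')) := hmono1 (R l₀).H hT m (hB l₀ _ (by omega))
        have h3 : Mono ((R l₀).H.map (p⟦m⟧')) := hmono1 (R l₀).H hD m (hY l₀ _ (by omega))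
        rw [Functor.map_comp, Functor.map_comp]
        infer_instance
      exact hz3_of_epi_mono (R l₀).H hW n (e1 n (by omega)) (e2 (n + 1) (by omega))
  have h2 : IsIso (i ≫ p) := isIso1_of_isZero3 hW h1
  rw [← cancel_epi (i ≫ p), Category.assoc, comp12 hD, comp_zero, comp_zero]

/-- The t-structure given by the degrees of the realisations. -/
noncomputable def liftT : TStructure C where
  le n := AllLE R n
  ge n := AllGE R n
  le_isClosedUnderIsomorphisms n := ⟨fun e hX l i hi =>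
    (hX l i hi).of_iso ((R l).H.mapIso ((shiftFunctor C i).mapIso e.symm))⟩
  ge_isClosedUnderIsomorphisms n := ⟨fun e hX l i hi =>
    (hX l i hi).of_iso ((R l).H.mapIso ((shiftFunctor C i).mapIso e.symm))⟩
  le_shift n a n' h X hX l i hi :=
    (hX l (a + i) (by omega)).of_iso ((R l).H.mapIso ((shiftFunctorAdd C a i).app X).symm)
  ge_shift n a n' h X hX l i hi :=
    (hX l (a + i) (by omega)).of_iso ((R l).H.mapIso ((shiftFunctorAdd C a i).app X).symm)
  zero' X Y f hX hY := orthogonal hc hl f hX hY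
  le_zero_le X hX l i hi := hX l i (by omega)
  ge_one_le X hX l i hi := hX l i (by omega)
  exists_triangle_zero_one A := by
    obtain ⟨X, Y, i, p, q, hT, hX, hY⟩ := truncations' hc hl A 0
    exact ⟨X, Y, hX, hY, i, p, q, hT⟩

/-- The t-structure is motivic. -/
theorem liftT_motivic : IsMotivic (liftT hc hl) R := by
  refine ⟨fun X hX => ?_, fun X hX => ?_, fun X Y hX hY l i hi => ?_, fun X Y hX hY l i hi => ?_,
    fun l X hX i hi => hX l i hi, fun l X hX i hi => hX l i hi⟩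
  · exact hc X fun i => hX (i - 1) l₀ i (by omega)
  · exact hc X fun i => hX (i + 1) l₀ i (by omega)
  · exact tensor_vanish_pos (hX l) (hY l) hi
  · exact tensor_vanish_neg (hX l) (hY l) hi

end

section

variable {C : Type u} [Category.{v} C] [Preadditive C] [HasZeroObject C] [HasShift C ℤ]
  [∀ n : ℤ, (shiftFunctor C n).Additive] [Pretriangulated C] [IsTriangulated C]
  [MonoidalCategory C]
  [SymmetricCategory C] [TensorTriangulated C] [MonoidalPreadditive C] [RightRigidCategory C]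
  {Λ : Type*} {E : Λ → Type w} [∀ l, Field (E l)] {R : ∀ l, Realisation C (E l)}

/-- For a motivic t-structure the lowest cohomology of each object lifts. -/
theorem lifts_of_motivic [Nonempty Λ]
    (hid : ∀ e : 𝟙_ C ⟶ 𝟙_ C, e ≫ e = e → e = 0 ∨ e = 𝟙 _) {t : TStructure C}
    (h : IsMotivic t R) : LowestLifts R := by
  have ht : TensorCompat t := ⟨h.tensor_le, h.tensor_ge⟩
  have hu : Hrt t (𝟙_ C) := unit_hrt ht h.nondeg_le h.nondeg_ge
  have he : ∀ l, TExact t (R l) := fun l => ⟨h.exact_le l, h.exact_ge l⟩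
  obtain ⟨l₀⟩ := ‹Nonempty Λ›
  intro M hM
  obtain ⟨N, hN1, hN2⟩ := bounded_of_H ht (he l₀) hu hid h.nondeg_le h.nondeg_ge M
  obtain ⟨a, ha1, ha2⟩ : ∃ a : ℤ, t.IsGE M a ∧ ¬ t.IsGE M (a + 1) := by
    by_contra hcon
    push Not at hcon
    have h1 : ∀ k : ℕ, t.IsGE M (-N + k) := by
      intro k
      induction k with
      | zero => simpa using hN2
      | succ k ih =>
        have := hcon _ ih
        rwa [show (-N + k : ℤ) + 1 = -N + (k + 1 : ℕ) by push_cast; ring] at this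
    have h2 := h1 (2 * N + 1)
    rw [show (-N + (2 * N + 1 : ℕ) : ℤ) = N + 1 by push_cast; ring] at h2
    exact hM (t.isZero M N (N + 1) (by omega))
  obtain ⟨A, B, hA, hB, f, g, k, hT⟩ := t.exists_triangle M a (a + 1) rfl
  have hA1 : t.IsLE A a := ⟨hA⟩
  have hB1 : t.IsGE B (a + 1) := ⟨hB⟩
  have hA2 : t.IsGE A a := isGE1 hT ha1 (t.isGE_of_ge B (a - 1) (a + 1))
  refine ⟨a, A, f, fun hz => ?_, fun l => ⟨fun i hi => ?_, fun i hi => (he l).isGE ha1 i hi,
    hmono1 (R l).H hT a ((he l).isGE hB1 _ (by omega))⟩⟩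
  · have := isIso2_of_isZero1 hT hz
    exact ha2 (@TStructure.isGE_of_iso _ _ _ _ _ _ _ t _ _ (asIso g).symm _ hB1)
  · rcases lt_or_gt_of_ne hi with h1 | h1
    · exact (he l).isGE hA2 i h1
    · exact (he l).isLE hA1 i h1

/-- The criterion. -/
theorem exists_motivic_iff [Nonempty Λ]
    (hid : ∀ e : 𝟙_ C ⟶ 𝟙_ C, e ≫ e = e → e = 0 ∨ e = 𝟙 _) :
    (∃ t : TStructure C, IsMotivic t R) ↔ (∃ l, Conservative (R l)) ∧ LowestLifts R := by
  constructor
  · rintro ⟨t, h⟩
    exact ⟨(almost_of_motivic hid h).conservative, lifts_of_motivic hid h⟩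
  · rintro ⟨⟨l₀, hc⟩, hl⟩
    exact ⟨liftT hc hl, liftT_motivic hc hl⟩

end

end Pool.Agent.T6.H13.MT
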