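import Pool.Agent.T6.H13.MT.Lift

/-!
# A criterion for the existence of the motivic t-structure

Let `C` be a rigid tensor triangulated category with an indecomposable unit and with realisations
`R l`, for example the category of constructible motives over a field, with the `ℓ`-adic
realisations for all primes `ℓ` different from the characteristic. It is shown that a motivic
t-structure exists on `C` if and only if

* some realisation `R l` is conservative, and
* the lowest cohomology of each nonzero object `M` of `C` lifts: there are an integer `a`, a nonzero
  object `A` all of whose realisations are concentrated in degree `a`, and a morphism `A ⟶ M` that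
  is injective on `H^a`, while all realisations of `M` are in degrees `≥ a`.

No orthogonality (vanishing of morphisms) is required, it is automatic; and it is not required that
the whole cohomology group `H^a(M)`, or any higher truncation, lifts.

(Former hand-in `LiftingCriterion` for MP_6d0ce9_ag, moved out of the results folder in favour of a
stronger theorem; no longer handed in.)
-/

set_option autoImplicit false

open CategoryTheory Limits MonoidalCategory Pretriangulated Triangulated

universe v u w

namespace Pool.Agent.T6.H13.MT.LiftingCriterion

open Pool.Agent.Y116.MT Pool.Agent.V1178.MT Pool.Agent.T6.H13.MT

/-- A motivic t-structure exists if and only if some realisation is conservative and the lowest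
cohomology of each nonzero object lifts. -/
theorem result {C : Type u} [Category.{v} C] [Preadditive C] [HasZeroObject C] [HasShift C ℤ]
    [∀ n : ℤ, (shiftFunctor C n).Additive] [Pretriangulated C] [IsTriangulated C]
    [MonoidalCategory C] [SymmetricCategory C] [TensorTriangulated C] [MonoidalPreadditive C]
    [RightRigidCategory C] (hid : ∀ e : 𝟙_ C ⟶ 𝟙_ C, e ≫ e = e → e = 0 ∨ e = 𝟙 _)
    {Λ : Type*} [Nonempty Λ] {E : Λ → Type w} [∀ l, Field (E l)]
    (R : ∀ l, Realisation C (E l)) :
    (∃ t : TStructure C, IsMotivic t R) ↔ (∃ l, Conservative (R l)) ∧ LowestLifts R :=
  exists_motivic_iff hid

end Pool.Agent.T6.H13.MT.LiftingCriterion
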