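import Pool.Agent.T6.H13.MT.Num

/-!
# A t-structure which is motivic for one realisation is motivic for all
-/

set_option autoImplicit false
set_option linter.unusedSectionVars false
set_option linter.unusedSimpArgs false
set_option backward.isDefEq.respectTransparency false
set_option backward.defeqAttrib.useBackward true

open CategoryTheory Limits MonoidalCategory Pretriangulated Triangulated

namespace Pool.Agent.T6.H13.MT

open Pool.Agent.Y116.MT Pool.Agent.V1178.MT

universe v u w v' u' w'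

section

variable {C : Type u} [Category.{v} C] [Preadditive C] [HasZeroObject C] [HasShift C ℤ]
  [∀ n : ℤ, (shiftFunctor C n).Additive] [Pretriangulated C]

/-- The triangulated category `C` is generated by the objects in `G` under shifts, cones and direct
summands: each property of objects which is stable under shifts, cones and direct summands and
which holds for the objects in `G` holds for all objects. -/
def ThickGenerates (G : ObjectProperty C) : Prop :=
  ∀ P : ObjectProperty C, (∀ X, G X → P X) → (∀ X (n : ℤ), P X → P (X⟦n⟧)) →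
    (∀ T ∈ distTriang C, P T.obj₁ → P T.obj₂ → P T.obj₃) →
    (∀ (X Y : C) (i : Y ⟶ X) (r : X ⟶ Y), i ≫ r = 𝟙 Y → P X → P Y) → ∀ X, P X

end

section

variable {C : Type u} [Category.{v} C] [Preadditive C] [HasZeroObject C] [HasShift C ℤ]
  [∀ n : ℤ, (shiftFunctor C n).Additive] [Pretriangulated C] [IsTriangulated C]
  [MonoidalCategory C]
  [SymmetricCategory C] [TensorTriangulated C] [MonoidalPreadditive C] [RightRigidCategory C]
  {E : Type w} [Field E] {R : Realisation C E} {E' : Type w'} [Field E'] [CharZero E']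
  {R' : Realisation C E'} {t : TStructure C}
  (ht : TensorCompat t) (he : TExact t R) (hu : Hrt t (𝟙_ C))
  (hid : ∀ e : 𝟙_ C ⟶ 𝟙_ C, e ≫ e = e → e = 0 ∨ e = 𝟙 _) (hc : Conservative R)

include hc he in
lemma hh_isZero {X : C} (h : IsZero (R.H.obj X)) : IsZero ((hh t).obj X) := by
  apply hc
  intro i
  by_cases hi : i = 0
  · subst hi
    exact (h.of_iso ((hhIso he).app X)).of_iso
      (R.H.mapIso ((shiftFunctorZero C ℤ).app ((hh t).obj X)))
  · exact he.deg (hh_hrt t X) i hi

include he in
lemma finrank_hh (X : C) : Module.finrank E (R.H.obj ((hh t).obj X)) =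
    Module.finrank E (R.H.obj X) :=
  finrank_congr ((hhIso he).app X)

include ht he hu hid hc in
/-- The numerical argument for a generator. -/
theorem generator_pure {T T' : C} (eT : T ⊗ T' ≅ 𝟙_ C) (hT : R.Deg T (-2)) (hT' : R'.Deg T (-2))
    {G : C} (hb : ∀ i : ℤ, hd R G i ≤ hd R' G i) (e : ℤ)
    (hL : ∀ k : ℕ, ∃ L : G ⟶ twist T G k, IsIso (R.H.map (L⟦e - k⟧'))) (i j : ℤ) (hj : j ≠ 0) :
    vv t R' G i j = 0 := by
  obtain ⟨N, hN⟩ := R.bounded G
  choose B hB using fun i : ℤ => R'.bounded ((hh t).obj (G⟦i⟧))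
  obtain ⟨M, hM⟩ : ∃ M : ℕ, ∀ i ∈ Finset.Icc (-(N : ℤ)) N, B i ≤ M :=
    ⟨(Finset.Icc (-(N : ℤ)) N).sup B, fun i hi => Finset.le_sup hi⟩
  have hTh : Hrt t (T⟦(-2 : ℤ)⟧) := by
    have h1 : R.Deg (T⟦(-2 : ℤ)⟧) 0 := hT.shift (-2) 0 (by norm_num)
    exact ⟨isLE_of hc he fun i hi => h1 i (by omega), isGE_of hc he fun i hi => h1 i (by omega)⟩
  have hT1 := finrank_invertible eT hT'
  have hzero : ∀ i j : ℤ, vv t R' G i j ≠ 0 → |i| ≤ N ∧ |j| ≤ M := by
    intro i j h
    have h1 : |i| ≤ N := by
      by_contra hcon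
      push Not at hcon
      apply h
      have h2 := hN i (by rw [Int.abs_eq_natAbs] at hcon; exact_mod_cast hcon)
      exact hd_of_isZero R' (R'.H.map_isZero (isZero_shift (hh_isZero he hc h2) j))
    refine ⟨h1, ?_⟩
    by_contra hcon
    push Not at hcon
    apply h
    apply hd_of_isZero R'
    apply hB i j
    have h2 := hM i (by rw [Finset.mem_Icc, ← abs_le]; exact h1)
    rw [Int.abs_eq_natAbs] at hcon
    have h3 : M < j.natAbs := by exact_mod_cast hcon
    omega
  obtain ⟨K, hK⟩ : ∃ K : ℕ, K = N + M + e.natAbs := ⟨_, rfl⟩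
  have hKe : (K : ℤ) = N + M + |e| := by
    rw [hK, Int.abs_eq_natAbs]
    push_cast
    ring
  have key := comb (fun a j => vv t R' G (e + a) j) (fun a => hd R G (e + a)) K
    (fun a j h => by
      obtain ⟨h1, h2⟩ := hzero (e + a) j h
      have h3 : |a| ≤ |e + a| + |e| := by
        have : a = (e + a) - e := by ring
        calc |a| = |(e + a) - e| := by rw [← this]
          _ ≤ |e + a| + |e| := abs_sub _ _
      constructor <;> linarith [abs_nonneg e])
    (fun a h => by
      have h1 : |e + a| ≤ N := by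
        by_contra hcon
        push Not at hcon
        apply h
        exact hd_of_isZero R (hN _ (by rw [Int.abs_eq_natAbs] at hcon; exact_mod_cast hcon))
      have h3 : |a| ≤ |e + a| + |e| := by
        have : a = (e + a) - e := by ring
        calc |a| = |(e + a) - e| := by rw [← this]
          _ ≤ |e + a| + |e| := abs_sub _ _
      linarith)
    (fun a => by
      have h1 := heart_dsum (R' := R') ht he hu hid (hh_hrt t (G⟦e + a⟧)) K
      rw [finrank_hh he] at h1
      exact h1)
    (fun m => by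
      have h1 : t.IsLE G N := isLE_of hc he fun i hi => hN i (by omega)
      have h2 : t.IsGE G (-N) := isGE_of hc he fun i hi => hN i (by omega)
      have h3 := hd_le_vv (R' := R') hc he (e + m) (2 * N) G (-N) N (by push_cast; omega) h2 h1
        ((Finset.Icc (-(K : ℤ)) K).image (fun a => e + a)) (by
          intro i hi
          rw [Finset.mem_Icc] at hi
          rw [Finset.mem_image]
          refine ⟨i - e, ?_, by ring⟩
          rw [Finset.mem_Icc]
          have h4 := neg_abs_le e
          have h5 := le_abs_self e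
          constructor <;> linarith [hi.1, hi.2])
      refine (hb (e + m)).trans (h3.trans (le_of_eq ?_))
      rw [Finset.sum_image (fun x _ y _ h => by simpa using h)]
      refine Finset.sum_congr rfl (fun a _ => ?_)
      rw [show e + m - (e + a) = m - a by ring])
    (fun a j => by
      rcases le_total 0 a with ha | ha
      · obtain ⟨k, rfl⟩ := Int.eq_ofNat_of_zero_le ha
        obtain ⟨L, hL1⟩ := hL k
        exact vv_lefschetz ht he hc hTh hT' hT1 k L hL1 j
      · obtain ⟨k, hk⟩ := Int.eq_ofNat_of_zero_le (neg_nonneg.2 ha)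
        obtain ⟨L, hL1⟩ := hL k
        have h1 := vv_lefschetz ht he hc hTh hT' hT1 k L hL1 j
        have h2 : a = -(k : ℤ) := by omega
        subst h2
        change vv t R' G (e + -(-(k : ℤ))) j = vv t R' G (e + -(k : ℤ)) j
        rw [neg_neg]
        exact h1.symm)
  have := key (i - e) j hj
  simpa using this

include ht he hu hid hc in
/-- The second realisation is t-exact. -/
theorem texact_other {T T' : C} (eT : T ⊗ T' ≅ 𝟙_ C) (hT : R.Deg T (-2)) (hT' : R'.Deg T (-2))
    {𝒢 : ObjectProperty C} (hG : ThickGenerates 𝒢)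
    (hb : ∀ G, 𝒢 G → ∀ i : ℤ, hd R G i ≤ hd R' G i)
    (hL : ∀ G, 𝒢 G → ∃ e : ℤ, ∀ k : ℕ, ∃ L : G ⟶ twist T G k, IsIso (R.H.map (L⟦e - k⟧'))) :
    TExact t R' := by
  have hodd : ∀ Z : C, Hrt t Z → ∀ j : ℤ, Odd j → IsZero (R'.H.obj (Z⟦j⟧)) :=
    fun Z hZ j hj => heart_odd (R := R) ht he hu hid Z hZ j hj
  have hall : ∀ Y : C, ∀ i j : ℤ, j ≠ 0 →
      IsZero (R'.H.obj (((hh t).obj (Y⟦i⟧))⟦j⟧)) := by
    apply hG (fun Y => ∀ i j : ℤ, j ≠ 0 → IsZero (R'.H.obj (((hh t).obj (Y⟦i⟧))⟦j⟧)))
    · intro G hG' i j hj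
      obtain ⟨e, he'⟩ := hL G hG'
      exact isZero_of_hd R' (generator_pure ht he hu hid hc eT hT hT' (hb G hG') e he' i j hj)
    · intro X n hX i j hj
      exact (hX (n + i) j hj).of_iso (R'.H.mapIso ((shiftFunctor C j).mapIso
        ((hh t).mapIso ((shiftFunctorAdd C n i).app X).symm)))
    · intro D hD h1 h2 i j hj
      rcases Int.even_or_odd j with hj' | hj'
      · have h0 := Phi_homological (R' := R') hc he hodd hj'
        exact hz3 (Phi t R' j) (f := D.mor₁) (g := D.mor₂) (h := D.mor₃) hD i (h2 i j hj)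
          (h1 (i + 1) j hj)
      · exact hodd _ (hh_hrt t _) j hj'
    · intro X Y a r har hX i j hj
      have h1 := hX i j hj
      rw [IsZero.iff_id_eq_zero]
      have h2 : 𝟙 (R'.H.obj (((hh t).obj (Y⟦i⟧))⟦j⟧)) =
          R'.H.map (((hh t).map (a⟦i⟧'))⟦j⟧') ≫ R'.H.map (((hh t).map (r⟦i⟧'))⟦j⟧') := by
        rw [← Functor.map_comp, ← Functor.map_comp, ← Functor.map_comp, ← Functor.map_comp, har]
        rw [CategoryTheory.Functor.map_id, CategoryTheory.Functor.map_id,
          CategoryTheory.Functor.map_id, CategoryTheory.Functor.map_id]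
      rw [h2, h1.eq_of_tgt (R'.H.map (((hh t).map (a⟦i⟧'))⟦j⟧')) 0, zero_comp]
  apply texact_of_vv hc he
  intro Z j hZ hj
  have h1 := hall Z 0 j hj
  obtain ⟨e⟩ := hh_iso_self hZ
  exact h1.of_iso (R'.H.mapIso ((shiftFunctor C j).mapIso (e.symm ≪≫
    (hh t).mapIso ((shiftFunctorZero C ℤ).app Z).symm)))

end

section

variable {C : Type u} [Category.{v} C] [Preadditive C] [HasZeroObject C] [HasShift C ℤ]
  [∀ n : ℤ, (shiftFunctor C n).Additive] [Pretriangulated C] [IsTriangulated C]
  [MonoidalCategory C]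
  [SymmetricCategory C] [TensorTriangulated C] [MonoidalPreadditive C] [RightRigidCategory C]

/-- Conservativity and t-exactness of one realisation give all properties of a motivic t-structure
which do not involve the other realisations. -/
lemma motivic_single {E : Type w} [Field E] {R : Realisation C E} {t : TStructure C}
    (hc : Conservative R) (he : TExact t R) :
    TensorCompat t ∧ (∀ X : C, (∀ n : ℤ, t.le n X) → IsZero X) ∧
      (∀ X : C, (∀ n : ℤ, t.ge n X) → IsZero X) := by
  refine ⟨⟨fun X Y hX hY => ?_, fun X Y hX hY => ?_⟩, fun X hX => ?_, fun X hX => ?_⟩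
  · exact (isLE_of hc he fun i hi => tensor_vanish_pos (he.le X hX) (he.le Y hY) hi).le
  · exact (isGE_of hc he fun i hi => tensor_vanish_neg (he.ge X hX) (he.ge Y hY) hi).ge
  · exact hc X fun i => he.isLE (n := i - 1) ⟨hX _⟩ i (by omega)
  · exact hc X fun i => he.isGE (n := i + 1) ⟨hX _⟩ i (by omega)

/-- A t-structure is motivic for all realisations as soon as one realisation is conservative and
t-exact. -/
theorem motivic_iff_one (hid : ∀ e : 𝟙_ C ⟶ 𝟙_ C, e ≫ e = e → e = 0 ∨ e = 𝟙 _)
    {Λ : Type*} {E : Λ → Type w} [∀ l, Field (E l)] [∀ l, CharZero (E l)]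
    (R : ∀ l, Realisation C (E l)) (l₀ : Λ) {T T' : C} (eT : T ⊗ T' ≅ 𝟙_ C)
    (hT : ∀ l, (R l).Deg T (-2)) {𝒢 : ObjectProperty C} (hG : ThickGenerates 𝒢)
    (hb : ∀ G, 𝒢 G → ∀ l, ∀ i : ℤ, Module.finrank (E l₀) ((R l₀).H.obj (G⟦i⟧)) ≤
      Module.finrank (E l) ((R l).H.obj (G⟦i⟧)))
    (hL : ∀ G, 𝒢 G → ∃ e : ℤ, ∀ k : ℕ, ∃ L : G ⟶ twist T G k,
      IsIso ((R l₀).H.map (L⟦e - k⟧'))) (t : TStructure C) :
    IsMotivic t R ↔ Conservative (R l₀) ∧ TExact t (R l₀) := by
  constructor
  · intro h
    have ht : TensorCompat t := ⟨h.tensor_le, h.tensor_ge⟩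
    have hu : Hrt t (𝟙_ C) := unit_hrt ht h.nondeg_le h.nondeg_ge
    have he : TExact t (R l₀) := ⟨h.exact_le l₀, h.exact_ge l₀⟩
    exact ⟨fun X hX => conservative ht he hu hid h.nondeg_le h.nondeg_ge hX, he⟩
  · rintro ⟨hc, he⟩
    obtain ⟨ht, hle, hge⟩ := motivic_single hc he
    have hu : Hrt t (𝟙_ C) := unit_hrt ht hle hge
    have hall : ∀ l, TExact t (R l) := fun l =>
      texact_other ht he hu hid hc eT (hT l₀) (hT l) hG (fun G hG' i => hb G hG' l i) hL
    exact ⟨hle, hge, ht.le, ht.ge, fun l => (hall l).le, fun l => (hall l).ge⟩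

end

end Pool.Agent.T6.H13.MT
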