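import Pool.Agent.T6.H13.MT.Sub
import Pool.Agent.T6.H13.MT.Comb

/-!
# The dimensions of the second realisation of objects of the heart, and Lefschetz symmetry
-/

set_option autoImplicit false
set_option linter.unusedSectionVars false
set_option linter.unusedSimpArgs false
set_option backward.isDefEq.respectTransparency false
set_option backward.defeqAttrib.useBackward true

open CategoryTheory Limits MonoidalCategory Pretriangulated Triangulated

namespace Pool.Agent.T6.H13.MT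

open Pool.Agent.Y116.MT Pool.Agent.V1178.MT

universe v u w v' u' w'

open Functor.LaxMonoidal

section

variable {E : Type w} [Field E]

lemma finrank_tensor (M N : ModuleCat.{w} E) :
    Module.finrank E (M ⊗ N : ModuleCat.{w} E) = Module.finrank E M * Module.finrank E N :=
  Module.finrank_tensorProduct

lemma finrank_pw (X V : ModuleCat.{w} E) (n : ℕ) :
    Module.finrank E (pw X V n : ModuleCat.{w} E) = Module.finrank E X * Module.finrank E V ^ n := by
  induction n with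
  | zero => simp
  | succ n ih =>
    have h1 := finrank_tensor (pw X V n) V
    rw [ih] at h1
    refine h1.trans ?_
    ring

end

section

variable {C : Type u} [Category.{v} C] [Preadditive C] [HasZeroObject C] [HasShift C ℤ]
  [∀ n : ℤ, (shiftFunctor C n).Additive] [Pretriangulated C] [IsTriangulated C]
  [MonoidalCategory C]
  [SymmetricCategory C] [TensorTriangulated C] [MonoidalPreadditive C] [RightRigidCategory C]
  {E : Type w} [Field E] {R : Realisation C E} {E' : Type w'} [Field E'] {R' : Realisation C E'}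
  {t : TStructure C}

lemma finrank_unit (R : Realisation C E) : Module.finrank E (R.H.obj (𝟙_ C)) = 1 := by
  have h1 : Module.finrank E (𝟙_ (ModuleCat.{w} E) : ModuleCat.{w} E) = 1 :=
    Module.finrank_self E
  rw [← h1]
  exact (finrank_congr (asIso (Functor.LaxMonoidal.ε R.H))).symm

variable (ht : TensorCompat t) (he : TExact t R) (hu : Hrt t (𝟙_ C))
  (hid : ∀ e : 𝟙_ C ⟶ 𝟙_ C, e ≫ e = e → e = 0 ∨ e = 𝟙 _)

include ht he hu in
lemma finrank_H_pw {Z : C} (hZ : Hrt t Z) (k : ℕ) :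
    Module.finrank E (R.H.obj (pw (𝟙_ C) Z k)) = Module.finrank E (R.H.obj Z) ^ k := by
  have h1 := kap_iso (R := R) (fun n => he.deg (pw_hrt ht hu hZ n)) k
  rw [← finrank_congr (asIso (kap R.H (𝟙_ C) Z k)), finrank_pw, finrank_unit, one_mul]

include ht he hu hid in
lemma al_heart_zero {Z : C} (hZ : Hrt t Z) :
    al (-1) (𝟙_ C) Z (Module.finrank E (R.H.obj Z) + 1) = 0 := by
  rw [al_neg_one]
  have h0 := fun n => pw_hrt ht hu hZ n
  apply faithful_heart ht he hu hid (h0 _) (h0 _)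
  have h1 := kap_iso (R := R) (fun n => he.deg (h0 n)) (Module.finrank E (R.H.obj Z) + 1)
  rw [← cancel_epi (kap R.H (𝟙_ C) Z (Module.finrank E (R.H.obj Z) + 1)), ← alt_lax,
    alt_vec_zero _ _ _ (Nat.lt_succ_self _), zero_comp, comp_zero]

include ht he hu hid in
/-- Parity. -/
theorem heart_odd [CharZero E'] (Z : C) (hZ : Hrt t Z) (j : ℤ) (hj : Odd j) :
    IsZero (R'.H.obj (Z⟦j⟧)) :=
  odd_zero R' (al_heart_zero ht he hu hid hZ) hj

include ht he hu hid in
/-- The total dimension of the second realisation of an object of the heart is at most the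
dimension of the first. -/
theorem heart_dsum [CharZero E'] {Z : C} (hZ : Hrt t Z) (N : ℕ) :
    dsum R' N Z ≤ Module.finrank E (R.H.obj Z) := by
  apply dsum_le
  intro k
  rw [← finrank_H_pw ht he hu hZ k]
  exact al_heart_zero ht he hu hid (pw_hrt ht hu hZ k)

/-- Tensoring with an object of rank one in degree zero does not change the dimensions. -/
lemma hd_tensor {u : C} (hu0 : R'.Deg u 0) (hu1 : Module.finrank E' (R'.H.obj u) = 1) (M : C)
    (j : ℤ) : hd R' (u ⊗ M) j = hd R' M j := by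
  have h1 := hu0.isIso_mu (M⟦j⟧)
  have h2 : hd R' (u ⊗ M) j = Module.finrank E' (R'.H.obj (u ⊗ M⟦j⟧)) :=
    (finrank_congr (R'.H.mapIso (rShift u M j))).symm
  rw [h2, ← finrank_congr (asIso (μ R'.H u (M⟦j⟧))), finrank_tensor, hu1, one_mul]
  rfl

/-- Tensoring with an object in degree zero preserves the morphisms which become isomorphisms. -/
lemma H_tensor_isIso {u : C} (hu0 : R.Deg u 0) {X Y : C} (f : X ⟶ Y) (hf : IsIso (R.H.map f)) :
    IsIso (R.H.map (u ◁ f)) := by
  have h1 := hu0.isIso_mu X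
  have h2 := hu0.isIso_mu Y
  have h3 := μ_natural_right R.H u f
  have h4 : IsIso (μ R.H u X ≫ R.H.map (u ◁ f)) := by
    rw [← h3]
    infer_instance
  exact IsIso.of_isIso_comp_left (μ R.H u X) _

variable (hc : Conservative R)

include ht he hc in
lemma hh_tensor {u : C} (hu0 : Hrt t u) (Y : C) : Nonempty ((hh t).obj (u ⊗ Y) ≅ u ⊗ (hh t).obj Y) := by
  have h0 := he.deg hu0
  have h1 := H_tensor_isIso h0 _ (H_iota he Y)
  have h2 := H_tensor_isIso h0 _ (H_pi he ((t.truncLT 1).obj Y) (t.isLE_truncLT_obj Y 1 0))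
  have h3 := hh_map_isIso hc he _ h1
  have h4 := hh_map_isIso hc he _ h2
  have h5 : Hrt t (u ⊗ (hh t).obj Y) := ht.hrt hu0 (hh_hrt t Y)
  obtain ⟨e⟩ := hh_iso_self h5
  exact ⟨(asIso ((hh t).map (u ◁ (t.truncLTι 1).app Y))).symm ≪≫
    asIso ((hh t).map (u ◁ (t.truncGEπ 0).app ((t.truncLT 1).obj Y))) ≪≫ e⟩

include ht he hc in
/-- The effect of the Lefschetz object on the dimensions. -/
lemma vv_tensor {T : C} (hT : Hrt t (T⟦(-2 : ℤ)⟧)) (hT' : R'.Deg T (-2))
    (hT1 : Module.finrank E' (R'.H.obj (T⟦(-2 : ℤ)⟧)) = 1) (X : C) (i j : ℤ) :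
    vv t R' (X ⊗ T) i j = vv t R' X (i + 2) j := by
  set u : C := T⟦(-2 : ℤ)⟧ with hu
  have hu0 : R'.Deg u 0 := hT'.shift (-2) 0 (by norm_num)
  have e1 : T ≅ u⟦(2 : ℤ)⟧ := ((shiftFunctorCompIsoId C (-2 : ℤ) 2 (by norm_num)).app T).symm
  have e2 : (X ⊗ T)⟦i⟧ ≅ u ⊗ X⟦i + 2⟧ :=
    (shiftFunctor C i).mapIso (whiskerLeftIso X e1 ≪≫ rShift X u 2) ≪≫
      ((shiftFunctorAdd' C (2 : ℤ) i (i + 2) (by ring)).app (X ⊗ u)).symm ≪≫
      (shiftFunctor C (i + 2)).mapIso (β_ X u) ≪≫ (rShift u X (i + 2)).symm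
  obtain ⟨e3⟩ := hh_tensor ht he hc hT (X⟦i + 2⟧)
  have e4 := hd_iso R' ((hh t).mapIso e2 ≪≫ e3) j
  rw [hd_tensor hu0 hT1] at e4
  exact e4

include ht he hc in
lemma vv_twist {T : C} (hT : Hrt t (T⟦(-2 : ℤ)⟧)) (hT' : R'.Deg T (-2))
    (hT1 : Module.finrank E' (R'.H.obj (T⟦(-2 : ℤ)⟧)) = 1) (X : C) (k : ℕ) : ∀ (i j : ℤ),
    vv t R' (twist T X k) i j = vv t R' X (i + 2 * k) j := by
  induction k with
  | zero =>
    intro i j
    simp [twist]
  | succ k ih =>
    intro i j
    simp only [twist]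
    rw [vv_tensor ht he hc hT hT' hT1, ih]
    congr 1
    push_cast
    ring

include ht he hc in
/-- Lefschetz symmetry. -/
lemma vv_lefschetz {T : C} (hT : Hrt t (T⟦(-2 : ℤ)⟧)) (hT' : R'.Deg T (-2))
    (hT1 : Module.finrank E' (R'.H.obj (T⟦(-2 : ℤ)⟧)) = 1) {G : C} {e : ℤ} (k : ℕ)
    (L : G ⟶ twist T G k) (hL : IsIso (R.H.map (L⟦e - k⟧'))) (j : ℤ) :
    vv t R' G (e - k) j = vv t R' G (e + k) j := by
  have h1 := hh_map_isIso (t := t) hc he (L⟦e - k⟧') hL
  have h2 : vv t R' G (e - k) j = vv t R' (twist T G k) (e - k) j :=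
    vv_congr ⟨asIso ((hh t).map (L⟦e - k⟧'))⟩ j
  rw [h2, vv_twist ht he hc hT hT' hT1]
  congr 1
  ring

/-- The cohomology of an invertible object in one degree has dimension one. -/
lemma finrank_invertible {T T' : C} (e : T ⊗ T' ≅ 𝟙_ C) {a : ℤ} (hT : R.Deg T a) :
    Module.finrank E (R.H.obj (T⟦a⟧)) = 1 := by
  have h1 := hT.isIso_mu_shift T'
  have h2 : Module.finrank E (R.H.obj (T⟦a⟧)) * Module.finrank E (R.H.obj (T'⟦-a⟧)) = 1 := by
    rw [← finrank_tensor, finrank_congr (asIso (μ R.H (T⟦a⟧) (T'⟦-a⟧))),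
      finrank_congr (R.H.mapIso (shiftTensorIso T T' a ≪≫ e)), finrank_unit]
  exact Nat.eq_one_of_mul_eq_one_right h2

end

end Pool.Agent.T6.H13.MT
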