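import Pool.Agent.T6.H13.MT.Vec

/-!
# Signed symmetrizers and shifts
-/

set_option autoImplicit false
set_option linter.unusedSectionVars false
set_option linter.unusedSimpArgs false
set_option backward.isDefEq.respectTransparency false
set_option backward.defeqAttrib.useBackward true

open CategoryTheory Limits MonoidalCategory Pretriangulated Triangulated

namespace Pool.Agent.T6.H13.MT

open Pool.Agent.Y116.MT

universe v u w v' u'

open Functor.LaxMonoidal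

section

variable {C : Type u} [Category.{v} C] [Preadditive C] [HasZeroObject C] [HasShift C ℤ]
  [∀ n : ℤ, (shiftFunctor C n).Additive] [Pretriangulated C] [MonoidalCategory C]
  [SymmetricCategory C] [TensorTriangulated C] [MonoidalPreadditive C]

lemma whisker_shift_faithful {X Y : C} (n : ℤ) (f g : X ⟶ Y)
    (h : f ▷ ((𝟙_ C)⟦n⟧) = g ▷ ((𝟙_ C)⟦n⟧)) : f = g := by
  have h1 := rShift_natural_left f (𝟙_ C) n
  have h2 := rShift_natural_left g (𝟙_ C) n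
  rw [h, h2] at h1
  have h3 : (g ▷ 𝟙_ C)⟦n⟧' = (f ▷ 𝟙_ C)⟦n⟧' := by
    rwa [cancel_epi] at h1
  have h4 := (shiftFunctor C n).map_injective h3
  have h5 : (ρ_ X).hom ≫ g = (ρ_ X).hom ≫ f := by
    rw [← rightUnitor_naturality, ← rightUnitor_naturality, h4]
  exact ((cancel_epi _).1 h5).symm

/-- `Z⟦n⟧` is the tensor product of `Z` with the shift of the unit. -/
noncomputable def shiftUnitIso (Z : C) (n : ℤ) : Z ⊗ (𝟙_ C)⟦n⟧ ≅ Z⟦n⟧ :=
  rShift Z (𝟙_ C) n ≪≫ (shiftFunctor C n).mapIso (ρ_ Z)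

lemma braid_shift_one : (β_ ((𝟙_ C)⟦(1 : ℤ)⟧) ((𝟙_ C)⟦(1 : ℤ)⟧)).hom = (-1 : ℤ) • 𝟙 _ := by
  rw [TensorTriangulated.sign, neg_one_zsmul]

lemma braid_of_iso_unit {X : C} (e : X ≅ 𝟙_ C) : (β_ X X).hom = 𝟙 _ := by
  have h1 : (β_ (𝟙_ C) (𝟙_ C)).hom = 𝟙 _ := by
    rw [braiding_tensorUnit_left, unitors_equal, Iso.hom_inv_id]
  have h2 := BraidedCategory.braiding_naturality e.hom e.hom
  rw [h1, Category.comp_id] at h2
  rw [← cancel_mono (e.hom ⊗ₘ e.hom), ← h2, Category.id_comp]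

lemma braid_shift_neg_one :
    (β_ ((𝟙_ C)⟦(-1 : ℤ)⟧) ((𝟙_ C)⟦(-1 : ℤ)⟧)).hom = (-1 : ℤ) • 𝟙 _ := by
  set A : C := (𝟙_ C)⟦(1 : ℤ)⟧
  set B : C := (𝟙_ C)⟦(-1 : ℤ)⟧
  have e : B ⊗ A ≅ 𝟙_ C := shiftUnitIso B 1 ≪≫
    (shiftFunctorCompIsoId C (-1 : ℤ) 1 (by norm_num)).app (𝟙_ C)
  have h1 := Pool.Agent.Y112.KD.braid_mu B A
  rw [braid_of_iso_unit e, Category.id_comp, braid_shift_one] at h1
  have h2 : 𝟙 ((B ⊗ B) ⊗ (A ⊗ A)) = (β_ B B).hom ⊗ₘ ((-1 : ℤ) • 𝟙 (A ⊗ A)) := by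
    rw [← cancel_epi (tensorμ B A B A), ← h1, Category.comp_id]
  rw [tensorHom_zsmul_right, tensorHom_id] at h2
  have h3 : (β_ B B).hom ▷ (A ⊗ A) = ((-1 : ℤ) • 𝟙 (B ⊗ B)) ▷ (A ⊗ A) := by
    rw [wr_zsmul, id_whiskerRight, h2, smul_smul]
    norm_num
  have h4 : ((β_ B B).hom ▷ A) ▷ A = (((-1 : ℤ) • 𝟙 (B ⊗ B)) ▷ A) ▷ A := by
    rw [whiskerRight_tensor, whiskerRight_tensor] at h3
    simpa using h3
  exact whisker_shift_faithful 1 _ _ (whisker_shift_faithful 1 _ _ h4)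

lemma al_zero_shift_one {s : ℤ} {Z : C} {m : ℕ} (h : al s (𝟙_ C) Z m = 0) :
    al (-s) (𝟙_ C) (Z⟦(1 : ℤ)⟧) m = 0 := by
  refine al_zero_iso (Iso.refl _) (shiftUnitIso Z 1)
    (al_zero_twist (s := -1) (s' := -s) (by norm_num) braid_shift_one ?_)
  simpa using h

lemma al_zero_shift_neg_one {s : ℤ} {Z : C} {m : ℕ} (h : al s (𝟙_ C) Z m = 0) :
    al (-s) (𝟙_ C) (Z⟦(-1 : ℤ)⟧) m = 0 := by
  refine al_zero_iso (Iso.refl _) (shiftUnitIso Z (-1))
    (al_zero_twist (s := -1) (s' := -s) (by norm_num) braid_shift_neg_one ?_)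
  simpa using h

lemma al_zero_shift {s : ℤ} {Z : C} {m : ℕ} (h : al s (𝟙_ C) Z m = 0) (j : ℤ) :
    al (s * (j.negOnePow : ℤ)) (𝟙_ C) (Z⟦j⟧) m = 0 := by
  induction j using Int.induction_on with
  | zero =>
    simpa using al_zero_iso (Iso.refl _) ((shiftFunctorZero C ℤ).app Z).symm h
  | succ n ih =>
    have h1 := al_zero_iso (Iso.refl _) ((shiftFunctorAdd' C (n : ℤ) 1 (n + 1) rfl).app Z).symm
      (al_zero_shift_one ih)
    rwa [Int.negOnePow_succ, Units.val_neg, mul_neg]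
  | pred n ih =>
    have h1 := al_zero_iso (Iso.refl _) ((shiftFunctorAdd' C (-n : ℤ) (-1) (-n - 1) (by ring)).app
      Z).symm (al_zero_shift_neg_one ih)
    rwa [Int.negOnePow_sub, Int.negOnePow_one, mul_neg, mul_one, Units.val_neg, mul_neg]

lemma al_zero_even {s : ℤ} {Z : C} {m : ℕ} (h : al s (𝟙_ C) Z m = 0) {j : ℤ} (hj : Even j) :
    al s (𝟙_ C) (Z⟦j⟧) m = 0 := by
  have := al_zero_shift h j
  rwa [Int.negOnePow_even j hj, Units.val_one, mul_one] at this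

lemma al_zero_odd {s : ℤ} {Z : C} {m : ℕ} (h : al s (𝟙_ C) Z m = 0) {j : ℤ} (hj : Odd j) :
    al (-s) (𝟙_ C) (Z⟦j⟧) m = 0 := by
  have := al_zero_shift h j
  rwa [Int.negOnePow_odd j hj, Units.val_neg, Units.val_one, mul_neg, mul_one] at this

variable {E : Type w} [Field E] (R : Realisation C E)

/-- If the antisymmetrizer vanishes, all cohomology in odd degrees vanishes. -/
theorem odd_zero [CharZero E] {Z : C} {m : ℕ} (h : al (-1) (𝟙_ C) Z m = 0) {j : ℤ} (hj : Odd j) :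
    IsZero (R.H.obj (Z⟦j⟧)) := by
  have := al_zero_odd h hj
  rw [neg_neg] at this
  exact isZero_of_al_one R this

/-- If the antisymmetrizer vanishes, the cohomology in all degrees has small dimension. -/
theorem finrank_lt [CharZero E] {Z : C} {m : ℕ} (h : al (-1) (𝟙_ C) Z m = 0) (j : ℤ) :
    Module.finrank E (R.H.obj (Z⟦j⟧)) < m := by
  rcases Int.even_or_odd j with hj | hj
  · exact finrank_lt_of_al R (by norm_num) (al_zero_even h hj)
  · have h1 := al_zero_odd h hj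
    exact finrank_lt_of_al R (by norm_num) h1

end

end Pool.Agent.T6.H13.MT
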