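import Pool.Agent.T6.H13.MT.Func

/-!
# Subadditivity of the second realisation, and its exactness
-/

set_option autoImplicit false
set_option linter.unusedSectionVars false
set_option linter.unusedSimpArgs false
set_option backward.isDefEq.respectTransparency false
set_option backward.defeqAttrib.useBackward true

open CategoryTheory Limits MonoidalCategory Pretriangulated Triangulated

namespace Pool.Agent.T6.H13.MT

open Pool.Agent.Y116.MT Pool.Agent.V1178.MT

universe v u w v' u' w'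

section

variable {C : Type u} [Category.{v} C] [Preadditive C] [HasZeroObject C] [HasShift C ℤ]
  [∀ n : ℤ, (shiftFunctor C n).Additive] [Pretriangulated C] [IsTriangulated C]
  [MonoidalCategory C]
  [SymmetricCategory C] [TensorTriangulated C] [MonoidalPreadditive C] [RightRigidCategory C]
  {E : Type w} [Field E] {R : Realisation C E} {E' : Type w'} [Field E'] {R' : Realisation C E'}
  {t : TStructure C}

lemma hd_le_add {X Y Z : C} {f : X ⟶ Y} {g : Y ⟶ Z} {h : Z ⟶ X⟦(1 : ℤ)⟧}
    (hT : Triangle.mk f g h ∈ distTriang C) (n : ℤ) : hd R Y n ≤ hd R X n + hd R Z n := by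
  have h1 := LinearMap.finrank_range_add_finrank_ker (R.H.map (g⟦n⟧')).hom
  have h2 : Module.finrank E (LinearMap.range (R.H.map (g⟦n⟧')).hom) ≤ hd R Z n :=
    Submodule.finrank_le _
  have h3 : LinearMap.ker (R.H.map (g⟦n⟧')).hom ≤ LinearMap.range (R.H.map (f⟦n⟧')).hom := by
    intro x hx
    exact hex2 R.H hT n x hx
  have h4 : Module.finrank E (LinearMap.ker (R.H.map (g⟦n⟧')).hom) ≤
      Module.finrank E (LinearMap.range (R.H.map (f⟦n⟧')).hom) :=
    Submodule.finrank_mono h3
  have h5 : Module.finrank E (LinearMap.range (R.H.map (f⟦n⟧')).hom) ≤ hd R X n :=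
    LinearMap.finrank_range_le _
  have h6 : hd R Y n = Module.finrank E (R.H.obj (Y⟦n⟧)) := rfl
  omega

/-- The dimension of the cohomology in degree `j` of the `i`-th cohomology object. -/
noncomputable def vv (t : TStructure C) (R' : Realisation C E') (Y : C) (i j : ℤ) : ℕ :=
  hd R' ((hh t).obj (Y⟦i⟧)) j

lemma vv_shift (Y : C) (n i j : ℤ) : vv t R' (Y⟦n⟧) i j = vv t R' Y (n + i) j :=
  hd_iso R' ((hh t).mapIso ((shiftFunctorAdd C n i).app Y).symm) j

lemma vv_congr {X Y : C} {i : ℤ} (hf : Nonempty ((hh t).obj (X⟦i⟧) ≅ (hh t).obj (Y⟦i⟧))) (j : ℤ) :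
    vv t R' X i j = vv t R' Y i j :=
  hd_iso R' hf.some j

variable (hc : Conservative R) (he : TExact t R)

include hc he

/-- The dimension is at most the sum of the contributions of the cohomology objects. -/
theorem hd_le_vv (n : ℤ) (d : ℕ) : ∀ (Y : C) (a b : ℤ), b - a ≤ d → t.IsGE Y a → t.IsLE Y b →
    ∀ S : Finset ℤ, Finset.Icc a b ⊆ S → hd R' Y n ≤ ∑ i ∈ S, vv t R' Y i (n - i) := by
  have hpure : ∀ (Y : C) (a : ℤ), t.IsGE Y a → t.IsLE Y a → hd R' Y n = vv t R' Y a (n - a) := by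
    intro Y a h1 h2
    have h3 : Hrt t (Y⟦a⟧) := ⟨t.isLE_shift Y a a 0, t.isGE_shift Y a a 0⟩
    have h4 : hd R' (Y⟦a⟧) (n - a) = hd R' Y n := by
      rw [hd_shift, show a + (n - a) = n by ring]
    rw [← h4]
    exact hd_iso R' (hh_iso_self h3).some.symm _
  induction d with
  | zero =>
    intro Y a b hab h1 h2 S hS
    by_cases hab' : b < a
    · have hz : IsZero Y := t.isZero Y b a hab'
      rw [hd_of_isZero R' (R'.H.map_isZero (isZero_shift hz n))]
      exact Nat.zero_le _
    · have h3 : b = a := by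
        push_cast at hab
        omega
      subst h3
      rw [hpure Y b h1 h2]
      exact Finset.single_le_sum (f := fun i => vv t R' Y i (n - i)) (fun i _ => Nat.zero_le _)
        (hS (Finset.mem_Icc.2 ⟨le_rfl, le_rfl⟩))
  | succ d ih =>
    intro Y a b hab h1 h2 S hS
    obtain ⟨A, B, hA, hB, f, g, h, hT⟩ := t.exists_triangle Y a (a + 1) rfl
    have hA1 : t.IsLE A a := ⟨hA⟩
    have hB1 : t.IsGE B (a + 1) := ⟨hB⟩
    have hA2 : t.IsGE A a := isGE1 hT h1 (t.isGE_of_ge B (a - 1) (a + 1))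
    by_cases hab' : b ≤ a
    · exact ih Y a b (by omega) h1 h2 S hS
    have hB2 : t.IsLE B b := isLE3 hT (t.isLE_of_le A a (b + 1) (by omega)) h2
    have haS : a ∈ S := hS (Finset.mem_Icc.2 ⟨le_rfl, by omega⟩)
    have hS' : Finset.Icc (a + 1) b ⊆ S.erase a := by
      intro i hi
      rw [Finset.mem_Icc] at hi
      rw [Finset.mem_erase]
      exact ⟨by omega, hS (Finset.mem_Icc.2 ⟨by omega, hi.2⟩)⟩
    have hS0 : Finset.Icc (a + 1) b ⊆ Finset.Icc (a + 1) b := le_rfl
    have e1 := ih B (a + 1) b (by push_cast at hab ⊢; omega) hB1 hB2 _ hS0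
    have e2 := hpure A a hA2 hA1
    have e3 : vv t R' A a (n - a) = vv t R' Y a (n - a) := by
      apply vv_congr
      have h3 : Mono (R.H.map (f⟦a⟧')) := hmono1 R.H hT a (he.isGE hB1 _ (by omega))
      have h4 : Epi (R.H.map (f⟦a⟧')) := hepi1 R.H hT a (he.isGE hB1 _ (by omega))
      have h5 : IsIso (R.H.map (f⟦a⟧')) := isIso_of_mono_of_epi _
      have h6 := hh_map_isIso (t := t) hc he (f⟦a⟧') h5
      exact ⟨asIso ((hh t).map (f⟦a⟧'))⟩
    have e4 : ∑ i ∈ Finset.Icc (a + 1) b, vv t R' B i (n - i) =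
        ∑ i ∈ Finset.Icc (a + 1) b, vv t R' Y i (n - i) := by
      refine Finset.sum_congr rfl (fun i hi => ?_)
      rw [Finset.mem_Icc] at hi
      symm
      apply vv_congr
      have h3 : Mono (R.H.map (g⟦i⟧')) := hmono2 R.H hT i (he.isLE hA1 _ (by omega))
      have h4 : Epi (R.H.map (g⟦i⟧')) := hepi2 R.H hT i (he.isLE hA1 _ (by omega))
      have h5 : IsIso (R.H.map (g⟦i⟧')) := isIso_of_mono_of_epi _
      have h6 := hh_map_isIso (t := t) hc he (g⟦i⟧') h5
      exact ⟨asIso ((hh t).map (g⟦i⟧'))⟩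
    have e5 : ∑ i ∈ Finset.Icc (a + 1) b, vv t R' Y i (n - i) ≤
        ∑ i ∈ S.erase a, vv t R' Y i (n - i) := Finset.sum_le_sum_of_subset hS'
    have e6 := hd_le_add (R := R') hT n
    rw [← Finset.add_sum_erase S _ haS]
    omega

/-- If all objects of the heart have their second realisation in degree zero, it is t-exact. -/
theorem texact_of_vv (h : ∀ (Z : C) (j : ℤ), Hrt t Z → j ≠ 0 → IsZero (R'.H.obj (Z⟦j⟧))) :
    TExact t R' := by
  have hb : ∀ X : C, ∃ N : ℕ, t.IsLE X N ∧ t.IsGE X (-N) := fun X => by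
    obtain ⟨N, hN⟩ := R.bounded X
    exact ⟨N, isLE_of hc he fun i hi => hN i (by omega),
      isGE_of hc he fun i hi => hN i (by omega)⟩
  constructor
  · intro X hX n hn
    obtain ⟨N, -, hN⟩ := hb X
    have h1 : t.IsLE X 0 := ⟨hX⟩
    have h2 := hd_le_vv (R' := R') hc he n N X (-N) 0 (by omega) hN h1 _ (le_refl _)
    rw [Finset.sum_eq_zero] at h2
    · exact isZero_of_hd R' (Nat.le_zero.1 h2)
    · intro i hi
      rw [Finset.mem_Icc] at hi
      exact hd_of_isZero R' (h _ _ (hh_hrt t _) (by omega))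
  · intro X hX n hn
    obtain ⟨N, hN, -⟩ := hb X
    have h1 : t.IsGE X 0 := ⟨hX⟩
    have h2 := hd_le_vv (R' := R') hc he n N X 0 N (by omega) h1 hN _ (le_refl _)
    rw [Finset.sum_eq_zero] at h2
    · exact isZero_of_hd R' (Nat.le_zero.1 h2)
    · intro i hi
      rw [Finset.mem_Icc] at hi
      exact hd_of_isZero R' (h _ _ (hh_hrt t _) (by omega))

end

end Pool.Agent.T6.H13.MT
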