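import Pool.Agent.Y116.MT.HomNum
import Pool.Agent.Y112.KD.Zip

/-!
# Signed symmetrizers of tensor powers, and their behaviour under twists by invertible objects
-/

set_option autoImplicit false
set_option linter.unusedSectionVars false
set_option linter.unusedSimpArgs false
set_option backward.isDefEq.respectTransparency false
set_option backward.defeqAttrib.useBackward true

open CategoryTheory Limits MonoidalCategory Pretriangulated Triangulated

namespace Pool.Agent.T6.H13.MT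

open Pool.Agent.Y116.MT
open Pool.Agent.Y112.KD (sw sw_mu)

universe v u w v' u'

open Functor.LaxMonoidal

section

variable {C : Type u} [Category.{v} C] [MonoidalCategory C] [SymmetricCategory C]

/-- The signed symmetrizer: the symmetrizer for `s = 1`, the antisymmetrizer for `s = -1`. -/
def al [Preadditive C] (s : ℤ) (X Z : C) : ∀ n : ℕ, (pw X Z n ⟶ pw X Z n)
  | 0 => 𝟙 _
  | n + 1 => ∑ i : Fin (n + 1), (s ^ (n + i.val)) • (mv X Z n i ≫ (al s X Z n ▷ Z))

lemma al_neg_one [Preadditive C] (X Z : C) (n : ℕ) : al (-1) X Z n = alt X Z n := by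
  induction n with
  | zero => rfl
  | succ n ih => simp only [al, alt, ih]

/-- The map of powers. -/
def pm {X X' Z Z' : C} (f : X ⟶ X') (g : Z ⟶ Z') : ∀ n : ℕ, (pw X Z n ⟶ pw X' Z' n)
  | 0 => f
  | n + 1 => pm f g n ⊗ₘ g

lemma exch_pm {W W' Z Z' : C} (w : W ⟶ W') (g : Z ⟶ Z') :
    ((w ⊗ₘ g) ⊗ₘ g) ≫ (exch W' Z' Z').hom = (exch W Z Z).hom ≫ ((w ⊗ₘ g) ⊗ₘ g) := by
  have := Pool.Agent.Y112.KD.sw_nat w g g
  exact this

lemma mv_pm {X X' Z Z' : C} (f : X ⟶ X') (g : Z ⟶ Z') (n : ℕ) : ∀ i : Fin (n + 1),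
    mv X Z n i ≫ pm f g (n + 1) = pm f g (n + 1) ≫ mv X' Z' n i := by
  induction n with
  | zero => intro i; simp [mv]
  | succ n ih =>
    intro i
    refine Fin.lastCases ?_ (fun j => ?_) i
    · simp
    · rw [mv_castSucc, mv_castSucc]
      have h1 : pm f g (n + 1 + 1) = (pm f g n ⊗ₘ g) ⊗ₘ g := rfl
      have h2 : pm f g (n + 1 + 1) = pm f g (n + 1) ⊗ₘ g := rfl
      rw [Category.assoc]
      conv_lhs => rw [h1, ← exch_pm, ← h1, h2]
      conv_rhs => rw [h2]
      rw [← tensorHom_id, ← tensorHom_id, ← Category.assoc, ← Category.assoc,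
        tensorHom_comp_tensorHom, tensorHom_comp_tensorHom, ih, Category.id_comp, Category.comp_id]

lemma pm_isIso {X X' Z Z' : C} (f : X ⟶ X') (g : Z ⟶ Z') [IsIso f] [IsIso g] (n : ℕ) :
    IsIso (pm f g n) := by
  induction n with
  | zero => exact inferInstanceAs (IsIso f)
  | succ n ih => simp only [pm]; infer_instance

/-- The comparison of the tensor powers of a tensor product. -/
def zp (X Y A B : C) : ∀ n : ℕ, (pw (X ⊗ Y) (A ⊗ B) n ⟶ pw X A n ⊗ pw Y B n)
  | 0 => 𝟙 _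
  | n + 1 => (zp X Y A B n ▷ (A ⊗ B)) ≫ tensorμ (pw X A n) (pw Y B n) A B

instance tensorμ_isIso (A B A' B' : C) : IsIso (tensorμ A B A' B') :=
  ⟨tensorδ A B A' B', by simp, by simp⟩

lemma zp_isIso (X Y A B : C) (n : ℕ) : IsIso (zp X Y A B n) := by
  induction n with
  | zero => simp only [zp]; infer_instance
  | succ n ih => simp only [zp]; infer_instance

lemma zp_mv (X Y A B : C) (n : ℕ) : ∀ i : Fin (n + 1),
    mv (X ⊗ Y) (A ⊗ B) n i ≫ zp X Y A B (n + 1) =
      zp X Y A B (n + 1) ≫ (mv X A n i ⊗ₘ mv Y B n i) := by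
  induction n with
  | zero => intro i; simp [mv]
  | succ n ih =>
    intro i
    refine Fin.lastCases ?_ (fun j => ?_) i
    · simp
    · rw [mv_castSucc, mv_castSucc, mv_castSucc]
      have h1 : zp X Y A B (n + 1 + 1) = ((zp X Y A B n ▷ (A ⊗ B)) ▷ (A ⊗ B)) ≫
          (tensorμ (pw X A n) (pw Y B n) A B ▷ (A ⊗ B)) ≫
            tensorμ (pw X A (n + 1)) (pw Y B (n + 1)) A B := by
        simp [zp]
      have h2 : (exch (pw (X ⊗ Y) (A ⊗ B) n) (A ⊗ B) (A ⊗ B)).hom ≫ zp X Y A B (n + 1 + 1) =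
          zp X Y A B (n + 1 + 1) ≫ ((exch (pw X A n) A A).hom ⊗ₘ (exch (pw Y B n) B B).hom) := by
        rw [h1]
        have h3 := sw_mu (pw X A n) (pw Y B n) A B
        have h4 := Pool.Agent.Y112.KD.sw_nat_left (X := A ⊗ B) (zp X Y A B n)
        simp only [Category.assoc]
        change sw _ _ ≫ _ = _ ≫ _ ≫ _ ≫ (sw _ _ ⊗ₘ sw _ _)
        rw [← reassoc_of% h4, h3]
      rw [Category.assoc, h2]
      have h5 : zp X Y A B (n + 1 + 1) = (zp X Y A B (n + 1) ▷ (A ⊗ B)) ≫
        tensorμ (pw X A (n + 1)) (pw Y B (n + 1)) A B := rfl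
      rw [← Category.assoc]
      conv_lhs => rw [h5, ← comp_whiskerRight_assoc, ih, comp_whiskerRight_assoc,
        tensorμ_natural_left]
      rw [← tensorHom_comp_tensorHom, ← Category.assoc, ← Category.assoc, h5]

/-- The moves on the powers of an object with scalar symmetry. -/
lemma mv_scalar [Preadditive C] [MonoidalPreadditive C] (s : ℤ) (hs : s * s = 1) (Y L : C)
    (hL : (β_ L L).hom = s • 𝟙 _) (n : ℕ) : ∀ i : Fin (n + 1),
    mv Y L n i = (s ^ (n + i.val)) • 𝟙 _ := by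
  have hs2 : ∀ k : ℕ, s ^ (k + k) = 1 := fun k => by rw [pow_add, ← mul_pow, hs, one_pow]
  induction n with
  | zero =>
    intro i
    obtain rfl : i = 0 := Subsingleton.elim (α := Fin 1) _ _
    simp [mv]
  | succ n ih =>
    intro i
    refine Fin.lastCases ?_ (fun j => ?_) i
    · rw [mv_last, Fin.val_last, hs2, one_zsmul]
    · rw [mv_castSucc, ih j]
      have h1 : (exch (pw Y L n) L L).hom = s • 𝟙 _ := by
        simp only [exch, Iso.trans_hom, whiskerLeftIso_hom, Iso.symm_hom, hL, wl_zsmul,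
          MonoidalCategory.whiskerLeft_id, Preadditive.zsmul_comp, Preadditive.comp_zsmul,
          Category.id_comp, Iso.hom_inv_id]
      rw [h1, wr_zsmul, Preadditive.zsmul_comp, Preadditive.comp_zsmul, id_whiskerRight,
        Category.comp_id, smul_smul, Fin.val_castSucc,
        show n + 1 + j.val = (n + j.val) + 1 by omega, pow_succ]

lemma tensorHom_zsmul_left [Preadditive C] [MonoidalPreadditive C] {X X' Y Y' : C} (n : ℤ)
    (f : X ⟶ X') (g : Y ⟶ Y') : (n • f) ⊗ₘ g = n • (f ⊗ₘ g) := by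
  rw [MonoidalCategory.tensorHom_def, MonoidalCategory.tensorHom_def, wr_zsmul,
    Preadditive.zsmul_comp]

lemma tensorHom_zsmul_right [Preadditive C] [MonoidalPreadditive C] {X X' Y Y' : C} (n : ℤ)
    (f : X ⟶ X') (g : Y ⟶ Y') : f ⊗ₘ (n • g) = n • (f ⊗ₘ g) := by
  rw [MonoidalCategory.tensorHom_def, MonoidalCategory.tensorHom_def, wl_zsmul,
    Preadditive.comp_zsmul]

lemma al_zp [Preadditive C] [MonoidalPreadditive C] (s s' : ℤ) (hs : s * s = 1) (X Y A L : C)
    (hL : (β_ L L).hom = s • 𝟙 _) (n : ℕ) :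
    al s' (X ⊗ Y) (A ⊗ L) n ≫ zp X Y A L n = zp X Y A L n ≫ (al (s' * s) X A n ▷ _) := by
  induction n with
  | zero => simp [al, zp]
  | succ n ih =>
    simp only [al, Preadditive.sum_comp]
    rw [show (∑ i : Fin (n + 1), (s' * s) ^ (n + i.val) • (mv X A n i ≫ al (s' * s) X A n ▷ A)) ▷
      pw Y L (n + 1) = ∑ i : Fin (n + 1), ((s' * s) ^ (n + i.val) •
        (mv X A n i ≫ al (s' * s) X A n ▷ A)) ▷ pw Y L (n + 1) from
        (tensorRight (pw Y L (n + 1))).map_sum _ _, Preadditive.comp_sum]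
    refine Finset.sum_congr rfl (fun i _ => ?_)
    have h5 : zp X Y A L (n + 1) = (zp X Y A L n ▷ (A ⊗ L)) ≫
      tensorμ (pw X A n) (pw Y L n) A L := rfl
    have h6 : (al s' (X ⊗ Y) (A ⊗ L) n ▷ (A ⊗ L)) ≫ zp X Y A L (n + 1) =
        zp X Y A L (n + 1) ≫ ((al (s' * s) X A n ▷ A) ▷ pw Y L (n + 1)) := by
      rw [h5, ← comp_whiskerRight_assoc, ih, comp_whiskerRight_assoc]
      have h7 := tensorμ_natural_left (al (s' * s) X A n) (𝟙 (pw Y L n)) A L
      rw [tensorHom_id, id_whiskerRight, tensorHom_id] at h7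
      rw [h7, Category.assoc]
    rw [Preadditive.zsmul_comp, Category.assoc, h6, ← Category.assoc, zp_mv,
      mv_scalar s hs Y L hL n i, tensorHom_zsmul_right, tensorHom_id, Preadditive.comp_zsmul,
      Preadditive.zsmul_comp, wr_zsmul, Preadditive.comp_zsmul, smul_smul, comp_whiskerRight,
      Category.assoc, mul_pow]

lemma al_pm [Preadditive C] (s : ℤ) {X X' Z Z' : C} (f : X ⟶ X') (g : Z ⟶ Z') (n : ℕ) :
    al s X Z n ≫ pm f g n = pm f g n ≫ al s X' Z' n := by
  induction n with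
  | zero => simp [al, pm]
  | succ n ih =>
    simp only [al, Preadditive.sum_comp, Preadditive.comp_sum]
    refine Finset.sum_congr rfl (fun i _ => ?_)
    have h1 : (al s X Z n ▷ Z) ≫ pm f g (n + 1) = pm f g (n + 1) ≫ (al s X' Z' n ▷ Z') := by
      have h2 : pm f g (n + 1) = pm f g n ⊗ₘ g := rfl
      rw [h2, ← tensorHom_id, ← tensorHom_id, tensorHom_comp_tensorHom, tensorHom_comp_tensorHom,
        ih, Category.id_comp, Category.comp_id]
    rw [Preadditive.zsmul_comp, Preadditive.comp_zsmul, Category.assoc, h1, ← Category.assoc,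
      mv_pm, Category.assoc]

lemma al_zero_iso [Preadditive C] {s : ℤ} {X X' Z Z' : C} (f : X ≅ X') (g : Z ≅ Z') {n : ℕ}
    (h : al s X Z n = 0) : al s X' Z' n = 0 := by
  have h1 := al_pm s f.hom g.hom n
  have := pm_isIso f.hom g.hom n
  rw [h, zero_comp] at h1
  rw [← cancel_epi (pm f.hom g.hom n), ← h1, comp_zero]

/-- Twisting by an object with scalar symmetry. -/
lemma al_zero_twist [Preadditive C] [MonoidalPreadditive C] {s s' : ℤ} (hs : s * s = 1) {A L : C}
    (hL : (β_ L L).hom = s • 𝟙 _) {n : ℕ} (h : al (s' * s) (𝟙_ C) A n = 0) :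
    al s' (𝟙_ C) (A ⊗ L) n = 0 := by
  have h1 := al_zp s s' hs (𝟙_ C) (𝟙_ C) A L hL n
  have := zp_isIso (𝟙_ C) (𝟙_ C) A L n
  have h2 : (0 : pw (𝟙_ C) A n ⟶ pw (𝟙_ C) A n) ▷ pw (𝟙_ C) L n = 0 :=
    (tensorRight (pw (𝟙_ C) L n)).map_zero _ _
  rw [h, h2, comp_zero] at h1
  have h3 : al s' (𝟙_ C ⊗ 𝟙_ C) (A ⊗ L) n = 0 := by
    rw [← cancel_mono (zp (𝟙_ C) (𝟙_ C) A L n), h1, zero_comp]
  exact al_zero_iso (λ_ (𝟙_ C)) (Iso.refl _) h3

end

section

variable {C : Type u} [Category.{v} C] [MonoidalCategory C] [SymmetricCategory C]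
  {D : Type u'} [Category.{v'} D] [MonoidalCategory D] [SymmetricCategory D]
  (H : C ⥤ D) [H.LaxBraided] (X Z : C) [Preadditive C] [Preadditive D] [MonoidalPreadditive D]
  [H.Additive]

lemma al_lax (s : ℤ) (n : ℕ) :
    al s (H.obj X) (H.obj Z) n ≫ kap H X Z n = kap H X Z n ≫ H.map (al s X Z n) := by
  induction n with
  | zero => simp [al, kap]
  | succ n ih =>
    simp only [al, Preadditive.sum_comp, Functor.map_sum, Preadditive.comp_sum]
    refine Finset.sum_congr rfl (fun i _ => ?_)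
    rw [Functor.map_zsmul, Preadditive.zsmul_comp, Preadditive.comp_zsmul, Functor.map_comp,
      ← Category.assoc (kap H X Z (n + 1)), ← mv_lax]
    have h3 : (al s (H.obj X) (H.obj Z) n ▷ H.obj Z) ≫ kap H X Z (n + 1) =
          kap H X Z (n + 1) ≫ H.map (al s X Z n ▷ Z) := by
        have h4 : kap H X Z (n + 1) = (kap H X Z n ▷ H.obj Z) ≫
            μ H (pw X Z n) Z := rfl
        rw [h4, ← comp_whiskerRight_assoc, ih, comp_whiskerRight_assoc, μ_natural_left,
          Category.assoc]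
    rw [Category.assoc, Category.assoc, h3]

end

end Pool.Agent.T6.H13.MT
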