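import Pool.Agent.T6.H13.MT.Shift

/-!
# The total dimension of the cohomology, by the tensor power trick
-/

set_option autoImplicit false
set_option linter.unusedSectionVars false
set_option linter.unusedSimpArgs false
set_option backward.isDefEq.respectTransparency false
set_option backward.defeqAttrib.useBackward true

open CategoryTheory Limits MonoidalCategory Pretriangulated Triangulated

namespace Pool.Agent.T6.H13.MT

open Pool.Agent.Y116.MT

universe v u w v' u'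

open Functor.LaxMonoidal

lemma growth (r N : ℕ) (h : ∀ k : ℕ, (r + 1) ^ k ≤ (2 * (k * N) + 1) * r ^ k) : False := by
  rcases Nat.eq_zero_or_pos r with rfl | hr
  · have := h 1
    simp at this
  · obtain ⟨m, hm⟩ : ∃ m : ℕ, m = 4 * N * r ^ 2 + r ^ 2 + 1 := ⟨_, rfl⟩
    have h1 := h (2 * m)
    have hr' : (0 : ℝ) < r := by exact_mod_cast hr
    have h2 : (1 : ℝ) + m * (1 / r) ≤ (1 + 1 / r) ^ m :=
      one_add_mul_le_pow (by have : (0 : ℝ) < 1 / r := by positivity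
                             linarith) m
    have h3 : ((1 : ℝ) + 1 / r) ^ (2 * m) ≤ 2 * ((2 * m : ℕ) * N) + 1 := by
      have h4 : ((r : ℝ) + 1) ^ (2 * m) ≤ (2 * ((2 * m : ℕ) * N) + 1) * r ^ (2 * m) := by
        exact_mod_cast h1
      have h5 : ((1 : ℝ) + 1 / r) ^ (2 * m) = ((r : ℝ) + 1) ^ (2 * m) / r ^ (2 * m) := by
        rw [← div_pow]
        congr 1
        field_simp
      rw [h5, div_le_iff₀ (by positivity)]
      exact h4
    have h4 : ((m : ℝ) / r) ^ 2 ≤ ((1 : ℝ) + 1 / r) ^ (2 * m) := by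
      rw [mul_comm, pow_mul]
      apply pow_le_pow_left₀ (by positivity)
      have : (m : ℝ) / r = m * (1 / r) := by ring
      linarith
    have h5 : (m : ℝ) ^ 2 ≤ (4 * m * N + 1) * r ^ 2 := by
      have := h4.trans h3
      rw [div_pow, div_le_iff₀ (by positivity)] at this
      push_cast at this
      linarith
    have h6 : m ^ 2 ≤ (4 * m * N + 1) * r ^ 2 := by exact_mod_cast h5
    have h7 : 1 ≤ m := by omega
    have h8 : m * m = m * (4 * N * r ^ 2) + m * r ^ 2 + m := by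
      nth_rewrite 2 [hm]
      ring
    nlinarith [Nat.zero_le (r ^ 2), Nat.mul_le_mul_right (r ^ 2) h7]

section

variable {C : Type u} [Category.{v} C] [Preadditive C] [HasZeroObject C] [HasShift C ℤ]
  [∀ n : ℤ, (shiftFunctor C n).Additive] [Pretriangulated C] [MonoidalCategory C]
  [SymmetricCategory C] [TensorTriangulated C] {E : Type w} [Field E] (R : Realisation C E)

/-- The dimension of the cohomology. -/
noncomputable def hd (X : C) (i : ℤ) : ℕ := Module.finrank E (R.H.obj (X⟦i⟧))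

variable {R} in
lemma finrank_congr {M N : ModuleCat.{w} E} (e : M ≅ N) :
    Module.finrank E M = Module.finrank E N :=
  LinearEquiv.finrank_eq e.toLinearEquiv

lemma hd_iso {X Y : C} (e : X ≅ Y) (i : ℤ) : hd R X i = hd R Y i :=
  finrank_congr (R.H.mapIso ((shiftFunctor C i).mapIso e))

lemma hd_shift (X : C) (a i : ℤ) : hd R (X⟦a⟧) i = hd R X (a + i) :=
  finrank_congr (R.H.mapIso ((shiftFunctorAdd C a i).app X).symm)

lemma hd_zero (X : C) : hd R X 0 = Module.finrank E (R.H.obj X) :=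
  finrank_congr (R.H.mapIso ((shiftFunctorZero C ℤ).app X))

lemma isZero_of_hd {X : C} {i : ℤ} (h : hd R X i = 0) : IsZero (R.H.obj (X⟦i⟧)) := by
  rw [ModuleCat.isZero_iff_subsingleton]
  exact Module.finrank_zero_iff.1 h

lemma hd_of_isZero {X : C} {i : ℤ} (h : IsZero (R.H.obj (X⟦i⟧))) : hd R X i = 0 := by
  rw [ModuleCat.isZero_iff_subsingleton] at h
  exact Module.finrank_zero_of_subsingleton

/-- The inequality from the Künneth formula. -/
lemma kunneth_le (X Y : C) (m : ℤ) (S : Finset ℤ) :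
    ∑ i ∈ S, hd R X i * hd R Y (m - i) ≤ hd R (X ⊗ Y) m := by
  let M : ℤ → Type w := fun i : ℤ => (R.H.obj (X⟦i⟧) ⊗ R.H.obj (Y⟦m⟧⟦-i⟧) : ModuleCat.{w} E)
  let F : (∀ i : (S : Set ℤ), (R.H.obj (X⟦i.1⟧) ⊗ R.H.obj (Y⟦m⟧⟦-i.1⟧) : ModuleCat.{w} E)) →ₗ[E]
      R.H.obj (X ⊗ Y⟦m⟧) := kunnethMap R.H X (Y⟦m⟧) ∘ₗ
        DirectSum.lmk E ℤ (fun i : ℤ => (R.H.obj (X⟦i⟧) ⊗ R.H.obj (Y⟦m⟧⟦-i⟧) :
          ModuleCat.{w} E)) S
  have hF : Function.Injective F := (R.kunneth X (Y⟦m⟧)).1.comp (DirectSum.mk_injective S)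
  have h1 := LinearMap.finrank_le_finrank_of_injective hF
  have hfin : ∀ i : (S : Set ℤ), Module.Finite E
      (R.H.obj (X⟦i.1⟧) ⊗ R.H.obj (Y⟦m⟧⟦-i.1⟧) : ModuleCat.{w} E) := fun i => by
    change Module.Finite E (TensorProduct E (R.H.obj (X⟦i.1⟧)) (R.H.obj (Y⟦m⟧⟦-i.1⟧)))
    infer_instance
  rw [Module.finrank_pi_fintype] at h1
  have h2 : Module.finrank E (R.H.obj (X ⊗ Y⟦m⟧)) = hd R (X ⊗ Y) m :=
    finrank_congr (R.H.mapIso (rShift X Y m))
  rw [h2] at h1
  refine le_trans (le_of_eq ?_) h1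
  rw [← Finset.sum_coe_sort]
  refine Finset.sum_congr rfl (fun i _ => ?_)
  have h3 : Module.finrank E (R.H.obj (X⟦i.1⟧) ⊗ R.H.obj (Y⟦m⟧⟦-i.1⟧) : ModuleCat.{w} E) =
    Module.finrank E (R.H.obj (X⟦i.1⟧)) * Module.finrank E (R.H.obj (Y⟦m⟧⟦-i.1⟧)) :=
    Module.finrank_tensorProduct
  have h4 : Module.finrank E (R.H.obj (Y⟦m⟧⟦-i.1⟧)) = hd R Y (m - i.1) := by
    have := hd_shift R Y m (-i.1)
    rwa [← sub_eq_add_neg] at this
  rw [h3, h4]
  rfl

/-- The sum of the dimensions in the degrees between `-a` and `a`. -/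
noncomputable def dsum (a : ℕ) (X : C) : ℕ := ∑ i ∈ Finset.Icc (-(a : ℤ)) a, hd R X i

lemma dsum_mul (a b : ℕ) (X Y : C) : dsum R a X * dsum R b Y ≤ dsum R (a + b) (X ⊗ Y) := by
  have h1 : ∀ m : ℤ, ∑ i ∈ Finset.Icc (-(a : ℤ)) a, hd R X i * hd R Y (m - i) ≤
    hd R (X ⊗ Y) m := fun m => kunneth_le R X Y m _
  refine le_trans ?_ (Finset.sum_le_sum (s := Finset.Icc (-((a + b : ℕ) : ℤ)) ((a + b : ℕ) : ℤ))
    (fun m _ => h1 m))
  rw [Finset.sum_comm]
  simp only [dsum]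
  rw [Finset.sum_mul]
  refine Finset.sum_le_sum (fun i hi => ?_)
  rw [← Finset.mul_sum]
  refine Nat.mul_le_mul_left _ ?_
  rw [Finset.mem_Icc] at hi
  have h2 : ∑ j ∈ Finset.Icc (-(b : ℤ)) b, hd R Y j =
      ∑ m ∈ (Finset.Icc (-(b : ℤ)) b).image (fun j => i + j), hd R Y (m - i) := by
    rw [Finset.sum_image (fun x _ y _ h => by simpa using h)]
    refine Finset.sum_congr rfl (fun j _ => ?_)
    rw [add_sub_cancel_left]
  rw [h2]
  refine Finset.sum_le_sum_of_subset ?_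
  intro m hm
  rw [Finset.mem_image] at hm
  obtain ⟨j, hj, rfl⟩ := hm
  rw [Finset.mem_Icc] at hj ⊢
  push_cast
  omega

lemma dsum_pow (N : ℕ) (Z : C) (k : ℕ) :
    dsum R N Z ^ k ≤ dsum R (k * N) (pw (𝟙_ C) Z k) := by
  induction k with
  | zero =>
    rw [pow_zero, Nat.zero_mul]
    have h1 : dsum R 0 (pw (𝟙_ C) Z 0) = Module.finrank E (R.H.obj (𝟙_ C)) := by
      rw [← hd_zero R (𝟙_ C)]
      simp [dsum]
    rw [h1]
    by_contra h
    have h2 : Module.finrank E (R.H.obj (𝟙_ C)) = 0 := by omega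
    apply not_isZero_H_unit R
    rw [ModuleCat.isZero_iff_subsingleton]
    exact Module.finrank_zero_iff.1 h2
  | succ k ih =>
    calc dsum R N Z ^ (k + 1) = dsum R N Z ^ k * dsum R N Z := pow_succ _ _
      _ ≤ dsum R (k * N) (pw (𝟙_ C) Z k) * dsum R N Z := Nat.mul_le_mul_right _ ih
      _ ≤ dsum R (k * N + N) (pw (𝟙_ C) Z k ⊗ Z) := dsum_mul R _ _ _ _
      _ = dsum R ((k + 1) * N) (pw (𝟙_ C) Z (k + 1)) := by
        rw [show k * N + N = (k + 1) * N by ring]

/-- The tensor power trick: if the antisymmetrizers of the tensor powers of `Z` vanish as they do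
for an object of dimension `r`, the total dimension of the cohomology is at most `r`. -/
theorem dsum_le [MonoidalPreadditive C] [CharZero E] {Z : C} {r : ℕ}
    (h : ∀ k : ℕ, al (-1) (𝟙_ C) (pw (𝟙_ C) Z k) (r ^ k + 1) = 0) (N : ℕ) : dsum R N Z ≤ r := by
  by_contra hcon
  push Not at hcon
  refine growth r N (fun k => ?_)
  calc (r + 1) ^ k ≤ dsum R N Z ^ k := Nat.pow_le_pow_left hcon k
    _ ≤ dsum R (k * N) (pw (𝟙_ C) Z k) := dsum_pow R N Z k
    _ ≤ ∑ i ∈ Finset.Icc (-((k * N : ℕ) : ℤ)) ((k * N : ℕ) : ℤ), r ^ k := by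
      refine Finset.sum_le_sum (fun i _ => ?_)
      have := finrank_lt R (h k) i
      exact Nat.lt_succ_iff.1 this
    _ = (2 * (k * N) + 1) * r ^ k := by
      rw [Finset.sum_const, Int.card_Icc, smul_eq_mul]
      congr 1
      omega

end

end Pool.Agent.T6.H13.MT
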