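import Pool.Agent.T6.H13.MT.Sym

/-!
# Vanishing of signed symmetrizers and dimensions
-/

set_option autoImplicit false
set_option linter.unusedSectionVars false
set_option linter.unusedSimpArgs false
set_option backward.isDefEq.respectTransparency false
set_option backward.defeqAttrib.useBackward true

open CategoryTheory Limits MonoidalCategory Pretriangulated Triangulated TensorProduct

namespace Pool.Agent.T6.H13.MT

open Pool.Agent.Y116.MT

universe v u w v' u'

open Functor.LaxMonoidal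

section

variable {E : Type w} [Field E] (X V : ModuleCat.{w} E)

/-- The functional on the tensor powers given by functionals on the factors. -/
noncomputable def phi (ξ : X →ₗ[E] E) (f : ℕ → V →ₗ[E] E) :
    ∀ n : ℕ, (pw X V n : ModuleCat.{w} E) →ₗ[E] E
  | 0 => ξ
  | n + 1 => LinearMap.mul' E E ∘ₗ TensorProduct.map (phi ξ f n) (f n)

lemma phi_tmul (ξ : X →ₗ[E] E) (f : ℕ → V →ₗ[E] E) (n : ℕ) (a : (pw X V n : ModuleCat.{w} E))
    (b : V) : phi X V ξ f (n + 1) (a ⊗ₜ[E] b : (pw X V n ⊗ V : ModuleCat.{w} E)) =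
      phi X V ξ f n a * f n b := rfl

lemma al_ten_succ (s : ℤ) (x : X) (n : ℕ) (v : Fin (n + 1) → V) :
    (al s X V (n + 1)) (ten X V x (n + 1) v) =
      ∑ i : Fin (n + 1), (s ^ (n + i.val)) •
        ((al s X V n (ten X V x n (i.removeNth v))) ⊗ₜ[E] (v i) :
          (pw X V n ⊗ V : ModuleCat.{w} E)) := by
  have h1 : (al s X V (n + 1)) (ten X V x (n + 1) v) =
      ∑ i : Fin (n + 1), (s ^ (n + i.val)) •
        ((al s X V n ▷ V) ((mv X V n i) (ten X V x (n + 1) v))) := by
    have h3 := ModuleCat.hom_sum (fun i : Fin (n + 1) =>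
      (s ^ (n + i.val)) • (mv X V n i ≫ (al s X V n ▷ V))) Finset.univ
    exact (LinearMap.congr_fun h3 _).trans (by rw [LinearMap.sum_apply]; rfl)
  rw [h1]
  refine Finset.sum_congr rfl (fun i _ => ?_)
  rw [mv_apply]
  rfl

lemma phi_al_dual (s : ℤ) (hs : s * s = 1) (ξ : X →ₗ[E] E) (f : ℕ → V →ₗ[E] E) (x : X) (n : ℕ) :
    ∀ (v : Fin n → V), (∀ (k : ℕ) (j : Fin n), k < n → f k (v j) = if k = j.val then 1 else 0) →
      phi X V ξ f n (al s X V n (ten X V x n v)) = ξ x := by
  induction n with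
  | zero => intro v _; rfl
  | succ n ih =>
    intro v hv
    rw [al_ten_succ, map_sum, Finset.sum_eq_single (Fin.last n)]
    · rw [map_zsmul, phi_tmul, hv n (Fin.last n) (by omega), if_pos (by simp), mul_one,
        Fin.val_last, pow_add, ← mul_pow, hs, one_pow, one_zsmul]
      apply ih
      intro k j hk
      rw [Fin.removeNth_last]
      have := hv k j.castSucc (by omega)
      simpa [Fin.init] using this
    · intro i _ hi
      have h1 : i.val ≠ n := fun h => hi (Fin.ext (by simpa using h))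
      rw [map_zsmul, phi_tmul, hv n i (by omega), if_neg (fun h => h1 h.symm), mul_zero, smul_zero]
    · intro h
      exact absurd (Finset.mem_univ _) h

lemma phi_al_const (ξ : X →ₗ[E] E) (f : V →ₗ[E] E) (x : X) (b : V) (hb : f b = 1) (n : ℕ) :
    phi X V ξ (fun _ => f) n (al 1 X V n (ten X V x n (fun _ => b))) = (n.factorial : E) * ξ x := by
  induction n with
  | zero => simp [phi, al, ten]
  | succ n ih =>
    rw [al_ten_succ, map_sum]
    have h1 : ∀ i : Fin (n + 1), i.removeNth (fun _ : Fin (n + 1) => b) = fun _ : Fin n => b :=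
      fun i => rfl
    rw [Finset.sum_congr rfl (g := fun _ => (n.factorial : E) * ξ x)]
    · rw [Finset.sum_const, Finset.card_univ, Fintype.card_fin, nsmul_eq_mul,
        Nat.factorial_succ]
      push_cast
      ring
    · intro i _
      rw [one_pow, one_zsmul, phi_tmul, h1, hb, mul_one]
      exact ih

variable {X V}

/-- If the antisymmetrizer of the `n`-th tensor power vanishes, the dimension is less than `n`. -/
theorem dim_lt_of_al [Module.Finite E V] (hX : ¬ IsZero X) {n : ℕ} (s : ℤ) (hs : s * s = 1)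
    (h : al s X V n = 0) : Module.finrank E V < n := by
  by_contra hn
  push Not at hn
  rw [ModuleCat.isZero_iff_subsingleton, not_subsingleton_iff_nontrivial] at hX
  obtain ⟨x, hx⟩ := exists_ne (0 : X)
  obtain ⟨ξ, hξ⟩ : ∃ ξ : Module.Dual E X, ξ x ≠ 0 := by
    by_contra hcon
    push Not at hcon
    exact hx ((Module.forall_dual_apply_eq_zero_iff E x).1 hcon)
  let b := Module.finBasis E V
  let f : ℕ → V →ₗ[E] E := fun k => if hk : k < Module.finrank E V then b.coord ⟨k, hk⟩ else 0
  have h1 := phi_al_dual X V s hs ξ f x n (fun j => b (Fin.castLE hn j)) (by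
    intro k j hk
    have hk' : k < Module.finrank E V := by omega
    simp only [f, dif_pos hk']
    rw [Module.Basis.coord_apply, Module.Basis.repr_self, Finsupp.single_apply]
    congr 1
    simp only [Fin.ext_iff, Fin.val_castLE, eq_iff_iff]
    exact ⟨fun h => h.symm, fun h => h.symm⟩)
  rw [h] at h1
  apply hξ
  rw [← h1]
  simp

/-- If a symmetrizer vanishes, the space vanishes. -/
theorem zero_of_al_one [CharZero E] (hX : ¬ IsZero X) {n : ℕ} (h : al 1 X V n = 0) :
    IsZero V := by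
  rw [ModuleCat.isZero_iff_subsingleton]
  by_contra hV
  rw [not_subsingleton_iff_nontrivial] at hV
  rw [ModuleCat.isZero_iff_subsingleton, not_subsingleton_iff_nontrivial] at hX
  obtain ⟨x, hx⟩ := exists_ne (0 : X)
  obtain ⟨ξ, hξ⟩ : ∃ ξ : Module.Dual E X, ξ x ≠ 0 := by
    by_contra hcon
    push Not at hcon
    exact hx ((Module.forall_dual_apply_eq_zero_iff E x).1 hcon)
  obtain ⟨y, hy⟩ := exists_ne (0 : V)
  obtain ⟨g, hg⟩ : ∃ g : Module.Dual E V, g y ≠ 0 := by
    by_contra hcon
    push Not at hcon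
    exact hy ((Module.forall_dual_apply_eq_zero_iff E y).1 hcon)
  have h1 := phi_al_const X V ξ ((g y)⁻¹ • g) x y (by simp [hg]) n
  rw [h] at h1
  have h2 : (n.factorial : E) * ξ x = 0 := by
    rw [← h1]
    simp
  rcases mul_eq_zero.1 h2 with h3 | h3
  · exact Nat.factorial_ne_zero n (by exact_mod_cast h3)
  · exact hξ h3

end

section

variable {C : Type u} [Category.{v} C] [Preadditive C] [HasZeroObject C] [HasShift C ℤ]
  [∀ n : ℤ, (shiftFunctor C n).Additive] [Pretriangulated C] [MonoidalCategory C]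
  [SymmetricCategory C] [TensorTriangulated C] {E : Type w} [Field E] (R : Realisation C E)

lemma mono_mu_iff {X X' Y Y' : C} (e : X ≅ X') (f : Y ≅ Y') (h1 : Mono (μ R.H X Y)) :
    Mono (μ R.H X' Y') := by
  have h : (R.H.map e.inv ⊗ₘ R.H.map f.inv) ≫ μ R.H X Y ≫ R.H.map (e.hom ⊗ₘ f.hom) =
      μ R.H X' Y' := by
    rw [← μ_natural R.H e.hom f.hom, tensorHom_comp_tensorHom_assoc]
    simp
  rw [← h]
  infer_instance

/-- The Künneth map is injective in degree zero. -/
lemma mono_mu (X Y : C) : Mono (μ R.H X Y) := by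
  refine mono_mu_iff R ((shiftFunctorZero C ℤ).app X)
    ((shiftFunctorZero' C (-0 : ℤ) (by simp)).app Y) ?_
  have h1 : Function.Injective (μ R.H (X⟦(0 : ℤ)⟧) (Y⟦(-0 : ℤ)⟧) ≫
      R.H.map (shiftTensorIso X Y 0).hom).hom := by
    have h2 := (R.kunneth X Y).1
    have h3 : ((μ R.H (X⟦(0 : ℤ)⟧) (Y⟦(-0 : ℤ)⟧) ≫
        R.H.map (shiftTensorIso X Y 0).hom).hom : _ → _) = kunnethMap R.H X Y ∘
        (DirectSum.lof E ℤ (fun i : ℤ => (R.H.obj (X⟦i⟧) ⊗ R.H.obj (Y⟦-i⟧) : ModuleCat.{w} E))
          0) := by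
      funext x
      rw [Function.comp_apply, kunnethMap, DirectSum.toModule_lof]
    rw [h3]
    exact h2.comp (DirectSum.of_injective 0)
  have h4 : Mono (μ R.H (X⟦(0 : ℤ)⟧) (Y⟦(-0 : ℤ)⟧) ≫ R.H.map (shiftTensorIso X Y 0).hom) :=
    (ModuleCat.mono_iff_injective _).2 h1
  exact mono_of_mono _ (R.H.map (shiftTensorIso X Y 0).hom)

lemma mono_whisker {M N : ModuleCat.{w} E} (f : M ⟶ N) [Mono f] (P : ModuleCat.{w} E) :
    Mono (f ▷ P) := by
  rw [ModuleCat.mono_iff_injective]
  exact Module.Flat.rTensor_preserves_injective_linearMap f.hom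
    ((ModuleCat.mono_iff_injective f).1 inferInstance)

lemma mono_kap (X Z : C) (n : ℕ) : Mono (kap R.H X Z n) := by
  induction n with
  | zero => simp only [kap]; infer_instance
  | succ n ih =>
    have h1 := mono_mu R (pw X Z n) Z
    have h2 := mono_whisker (kap R.H X Z n) (R.H.obj Z)
    simp only [kap]
    exact mono_comp _ _

lemma al_H_zero {s : ℤ} {Z : C} {n : ℕ} (h : al s (𝟙_ C) Z n = 0) :
    al s (R.H.obj (𝟙_ C)) (R.H.obj Z) n = 0 := by
  have := mono_kap R (𝟙_ C) Z n
  rw [← cancel_mono (kap R.H (𝟙_ C) Z n), al_lax, h, Functor.map_zero, comp_zero, zero_comp]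

/-- The dimension bound. -/
theorem finrank_lt_of_al {s : ℤ} (hs : s * s = 1) {Z : C} {n : ℕ} (h : al s (𝟙_ C) Z n = 0) :
    Module.finrank E (R.H.obj Z) < n :=
  dim_lt_of_al (not_isZero_H_unit R) s hs (al_H_zero R h)

/-- Parity. -/
theorem isZero_of_al_one [CharZero E] {Z : C} {n : ℕ} (h : al 1 (𝟙_ C) Z n = 0) :
    IsZero (R.H.obj Z) :=
  zero_of_al_one (not_isZero_H_unit R) (al_H_zero R h)

end

end Pool.Agent.T6.H13.MT
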